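import Mathlib

/-!
# One dimensional integrals
-/

namespace Pool.Agent.Lib.MP_bbe012_lc.QV

open MeasureTheory Set Function
open scoped ENNReal Classical

/-- truncated power `x_+^k / k!` -/
noncomputable def Pk (k : ℕ) (x : ℝ) : ℝ≥0∞ := ENNReal.ofReal ((max x 0) ^ k / (k.factorial : ℝ))

theorem Pk_of_nonpos {k : ℕ} (hk : 1 ≤ k) {x : ℝ} (hx : x ≤ 0) : Pk k x = 0 := by
  unfold Pk
  rw [max_eq_right hx, zero_pow (by omega)]
  simp

theorem Pk_of_nonneg {k : ℕ} {x : ℝ} (hx : 0 ≤ x) :
    Pk k x = ENNReal.ofReal (x ^ k / (k.factorial : ℝ)) := by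
  unfold Pk
  rw [max_eq_left hx]

theorem Pk_ne_top (k : ℕ) (x : ℝ) : Pk k x ≠ ∞ := ENNReal.ofReal_ne_top

theorem measurable_Pk (k : ℕ) : Measurable (Pk k) := by
  unfold Pk
  fun_prop

theorem lint_Ioo {f F : ℝ → ℝ} {c a : ℝ} (h : c ≤ a) (hF : ∀ t, HasDerivAt F (f t) t)
    (hf : Continuous f) (h0 : ∀ t ∈ Ioo c a, 0 ≤ f t) :
    ∫⁻ t in Ioo c a, ENNReal.ofReal (f t) = ENNReal.ofReal (F a - F c) := by
  rw [← intervalIntegral.integral_eq_sub_of_hasDerivAt (a := c) (b := a) (fun t _ => hF t)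
    (hf.intervalIntegrable _ _), intervalIntegral.integral_of_le h,
    integral_Ioc_eq_integral_Ioo, ofReal_integral_eq_lintegral_ofReal]
  · exact (hf.integrableOn_Icc).mono_set Ioo_subset_Icc_self
  · exact (ae_restrict_iff' measurableSet_Ioo).2 (Filter.Eventually.of_forall h0)

theorem lint_ite_Ioo (c a : ℝ) (f : ℝ → ℝ≥0∞) :
    ∫⁻ t : ℝ, (if c < t ∧ t < a then f t else 0) = ∫⁻ t in Ioo c a, f t := by
  rw [← lintegral_indicator measurableSet_Ioo]
  refine lintegral_congr fun t => ?_
  rw [indicator_apply]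
  rfl

/-- one step of the chain -/
theorem lint_Iio_Pk {k : ℕ} (hk : 1 ≤ k) {β γ : ℝ} (hγ : 0 < γ) (a : ℝ) :
    ∫⁻ t : ℝ, (if t < a then Pk k (β + γ * t) else 0)
      = Pk (k + 1) (β + γ * a) * ENNReal.ofReal γ⁻¹ := by
  set c : ℝ := -β / γ with hc
  have hc' : γ * c = -β := by rw [hc]; field_simp
  have h1 : ∀ t : ℝ, (if t < a then Pk k (β + γ * t) else 0)
      = if c < t ∧ t < a then ENNReal.ofReal ((β + γ * t) ^ k / (k.factorial : ℝ)) else 0 := by
    intro t
    by_cases ht : t < a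
    · by_cases hct : c < t
      · rw [if_pos ht, if_pos ⟨hct, ht⟩, Pk_of_nonneg]
        nlinarith
      · rw [if_pos ht, if_neg (fun h => hct h.1), Pk_of_nonpos hk]
        push Not at hct
        nlinarith
    · rw [if_neg ht, if_neg (fun h => ht h.2)]
  simp only [h1]
  rw [lint_ite_Ioo]
  have hfac : ((k + 1).factorial : ℝ) = ((k : ℝ) + 1) * (k.factorial : ℝ) := by
    rw [Nat.factorial_succ]; push_cast; ring
  have hfk : (k.factorial : ℝ) ≠ 0 := by positivity
  rcases le_or_gt a c with hac | hac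
  · rw [Ioo_eq_empty (not_lt.2 hac), Pk_of_nonpos (by omega)]
    · simp
    · nlinarith
  · rw [lint_Ioo (F := fun t => (β + γ * t) ^ (k + 1) / ((k + 1).factorial : ℝ) * γ⁻¹) hac.le]
    · have e1 : β + γ * c = 0 := by rw [hc']; ring
      have e2 : 0 ≤ β + γ * a := by nlinarith
      rw [e1, zero_pow (by omega), zero_div, zero_mul, sub_zero, Pk_of_nonneg e2,
        ENNReal.ofReal_mul (by positivity)]
    · intro t
      have h := (((hasDerivAt_id t).const_mul γ).const_add β).pow (k + 1)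
      have h' := (h.div_const ((k + 1).factorial : ℝ)).mul_const γ⁻¹
      refine h'.congr_deriv ?_
      rw [hfac]
      simp only [id, Nat.add_sub_cancel]
      push_cast
      field_simp
    · fun_prop
    · intro t ht
      have : 0 ≤ β + γ * t := by nlinarith [ht.1]
      positivity

theorem lint_ite_const (r : ℝ) (c : ℝ≥0∞) :
    ∫⁻ t : ℝ, (if 0 < t ∧ t < r then c else 0) = ENNReal.ofReal r * c := by
  rw [lint_ite_Ioo]
  rw [setLIntegral_const, Real.volume_Ioo, sub_zero, mul_comm]

theorem Pk_one (x : ℝ) : Pk 1 x = ENNReal.ofReal x := by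
  unfold Pk
  simp

/-- the constant -/
noncomputable def Cst (q k : ℕ) : ℝ≥0∞ :=
  ∫⁻ t : ℝ, if 0 < t then ENNReal.ofReal (t ^ q) * Pk k (1 - t) else 0

theorem Cst_ne_top {q k : ℕ} (hk : 1 ≤ k) : Cst q k ≠ ∞ := by
  have h : Cst q k ≤ ∫⁻ t : ℝ, (if 0 < t ∧ t < 1 then 1 else 0) := by
    refine lintegral_mono fun t => ?_
    by_cases h0 : 0 < t
    · by_cases h1 : t < 1
      · simp only [h0, h1, and_self, if_true]
        rw [Pk_of_nonneg (by linarith), ← ENNReal.ofReal_mul (by positivity)]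
        rw [← ENNReal.ofReal_one]
        refine ENNReal.ofReal_le_ofReal ?_
        have a1 : t ^ q ≤ 1 := pow_le_one₀ h0.le h1.le
        have a2 : (1 - t) ^ k / (k.factorial : ℝ) ≤ 1 := by
          rw [div_le_one (by positivity)]
          have b1 : (1 - t) ^ k ≤ 1 := pow_le_one₀ (by linarith) (by linarith)
          have b2 : (1 : ℝ) ≤ k.factorial := by exact_mod_cast Nat.factorial_pos k
          linarith
        have a3 : 0 ≤ (1 - t) ^ k / (k.factorial : ℝ) := by
          have : 0 ≤ 1 - t := by linarith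
          positivity
        nlinarith [pow_pos h0 q]
      · simp only [h0, h1, and_false, if_true, if_false]
        rw [Pk_of_nonpos hk (by linarith)]
        simp
    · simp [h0]
  refine ne_top_of_le_ne_top ?_ h
  rw [lint_ite_const]
  simp

theorem Cst_ne_zero {q k : ℕ} : Cst q k ≠ 0 := by
  have h : ENNReal.ofReal ((1 / 4) ^ q * ((1 / 2) ^ k / (k.factorial : ℝ))) *
      ENNReal.ofReal (1 / 2 - 1 / 4) ≤ Cst q k := by
    calc ENNReal.ofReal ((1 / 4) ^ q * ((1 / 2) ^ k / (k.factorial : ℝ))) *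
          ENNReal.ofReal (1 / 2 - 1 / 4)
        = ∫⁻ _ in Ioo (1 / 4 : ℝ) (1 / 2),
          ENNReal.ofReal ((1 / 4) ^ q * ((1 / 2) ^ k / (k.factorial : ℝ))) := by
          rw [setLIntegral_const, Real.volume_Ioo]
      _ = ∫⁻ t : ℝ, (if 1 / 4 < t ∧ t < 1 / 2 then
          ENNReal.ofReal ((1 / 4) ^ q * ((1 / 2) ^ k / (k.factorial : ℝ))) else 0) :=
          (lint_ite_Ioo _ _ _).symm
      _ ≤ Cst q k := by
          refine lintegral_mono fun t => ?_
          by_cases h0 : 1 / 4 < t ∧ t < 1 / 2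
          · have h1 : 0 < t := by linarith [h0.1]
            simp only [h0, h1, and_self, if_true]
            rw [Pk_of_nonneg (by linarith [h0.2]), ← ENNReal.ofReal_mul (by positivity)]
            refine ENNReal.ofReal_le_ofReal ?_
            have a1 : (1 / 4 : ℝ) ^ q ≤ t ^ q := pow_le_pow_left₀ (by norm_num) h0.1.le q
            have a2 : (1 / 2 : ℝ) ^ k ≤ (1 - t) ^ k :=
              pow_le_pow_left₀ (by norm_num) (by linarith [h0.2]) k
            gcongr
          · simp only [h0, if_false]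
            exact zero_le
  refine fun h0 => ?_
  rw [h0, nonpos_iff_eq_zero, mul_eq_zero] at h
  rcases h with h | h
  · rw [ENNReal.ofReal_eq_zero] at h
    have : (0 : ℝ) < (1 / 4) ^ q * ((1 / 2) ^ k / (k.factorial : ℝ)) := by positivity
    linarith
  · rw [ENNReal.ofReal_eq_zero] at h
    norm_num at h

/-- the indicator of `F > 0` -/
theorem lint_indicator {κ k : ℕ} (hκ : 1 ≤ κ) (F : ℝ) :
    ∫⁻ τ : ℝ, (if 0 < τ then ENNReal.ofReal (τ ^ (κ - 1)) * (Pk κ F * Pk k (1 - τ * F)) else 0)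
      = if 0 < F then Pk κ 1 * Cst (κ - 1) k else 0 := by
  by_cases hF : 0 < F
  · rw [if_pos hF]
    set g : ℝ → ℝ≥0∞ := fun t => if 0 < t then ENNReal.ofReal (t ^ (κ - 1)) * Pk k (1 - t) else 0
      with hg
    have hgm : Measurable g := by
      refine Measurable.ite measurableSet_Ioi ?_ measurable_const
      exact (by fun_prop : Measurable fun t : ℝ => ENNReal.ofReal (t ^ (κ - 1))).mul
        ((measurable_Pk k).comp (by fun_prop))
    have h1 : ∀ τ : ℝ,
        (if 0 < τ then ENNReal.ofReal (τ ^ (κ - 1)) * (Pk κ F * Pk k (1 - τ * F)) else 0)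
        = Pk κ 1 * (ENNReal.ofReal F * g (F * τ)) := by
      intro τ
      by_cases hτ : 0 < τ
      · have hFτ : 0 < F * τ := mul_pos hF hτ
        simp only [hg, hτ, hFτ, if_true]
        rw [Pk_of_nonneg hF.le, Pk_of_nonneg (zero_le_one), mul_comm τ F]
        rw [← mul_assoc, ← mul_assoc, ← mul_assoc]
        congr 1
        rw [← ENNReal.ofReal_mul (by positivity), ← ENNReal.ofReal_mul (by positivity),
          ← ENNReal.ofReal_mul (by positivity)]
        congr 1
        obtain ⟨m, rfl⟩ : ∃ m, κ = m + 1 := ⟨κ - 1, by omega⟩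
        simp only [Nat.add_sub_cancel]
        rw [mul_pow, pow_succ]
        ring
      · have hFτ : ¬ 0 < F * τ := by
          push Not at hτ ⊢
          exact mul_nonpos_of_nonneg_of_nonpos hF.le hτ
        simp only [hg, hτ, hFτ, if_false, mul_zero]
    simp only [h1]
    rw [lintegral_const_mul' _ _ (Pk_ne_top κ 1), lintegral_const_mul' _ _ ENNReal.ofReal_ne_top]
    have h2 : ∫⁻ τ : ℝ, g (F * τ) = ENNReal.ofReal |F⁻¹| * ∫⁻ t, g t := by
      have h3 := Real.map_volume_mul_left hF.ne'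
      have h4 : ∫⁻ t, g t ∂(Measure.map (fun x => F * x) volume) = ∫⁻ τ : ℝ, g (F * τ) :=
        lintegral_map hgm (by fun_prop)
      rw [← h4, h3, lintegral_smul_measure, smul_eq_mul]
    rw [h2, ← mul_assoc (ENNReal.ofReal F), ← ENNReal.ofReal_mul hF.le,
      abs_of_pos (inv_pos.2 hF), mul_inv_cancel₀ hF.ne', ENNReal.ofReal_one, one_mul]
    rfl
  · rw [if_neg hF]
    have h1 : ∀ τ : ℝ,
        (if 0 < τ then ENNReal.ofReal (τ ^ (κ - 1)) * (Pk κ F * Pk k (1 - τ * F)) else 0)
        = 0 := by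
      intro τ
      rw [Pk_of_nonpos hκ (not_lt.1 hF)]
      simp
    simp [h1]

/-- inner integral of the pair lemma -/
theorem lint_inner (x : ℝ) :
    ∫⁻ v : ℝ, (if 0 < x + v ∧ 0 < v ∧ v * (x + v) < 1 then ENNReal.ofReal (x + 2 * v) else 0)
      = 1 := by
  set s : ℝ := Real.sqrt (x ^ 2 + 4) with hs
  have hs2 : s ^ 2 = x ^ 2 + 4 := Real.sq_sqrt (by positivity)
  have hs0 : 0 ≤ s := Real.sqrt_nonneg _
  have hsx : x < s := by nlinarith [sq_nonneg (s - x), abs_nonneg x]
  have hsx' : -x < s := by nlinarith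
  set vs : ℝ := (-x + s) / 2 with hvs
  set m : ℝ := max 0 (-x) with hm
  have hm0 : m * (x + m) = 0 := by
    rcases le_total 0 (-x) with h | h
    · rw [hm, max_eq_right h]; ring
    · rw [hm, max_eq_left h]; ring
  have hmv : m ≤ vs := by
    rw [hm, hvs]
    refine max_le ?_ ?_ <;> linarith
  have h1 : ∀ v : ℝ,
      (if 0 < x + v ∧ 0 < v ∧ v * (x + v) < 1 then ENNReal.ofReal (x + 2 * v) else 0)
      = if m < v ∧ v < vs then ENNReal.ofReal (x + 2 * v) else 0 := by
    intro v
    have hiff : (0 < x + v ∧ 0 < v ∧ v * (x + v) < 1) ↔ (m < v ∧ v < vs) := by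
      constructor
      · rintro ⟨ha, hb, hc⟩
        refine ⟨max_lt hb (by linarith), ?_⟩
        by_contra hlt
        push Not at hlt
        have : (v - vs) * (v - (-x - s) / 2) = v * (x + v) - 1 := by
          rw [hvs]; nlinarith [hs2]
        have h2 : 0 ≤ (v - vs) * (v - (-x - s) / 2) := mul_nonneg (by linarith) (by linarith)
        linarith
      · rintro ⟨ha, hb⟩
        have hv0 : 0 < v := lt_of_le_of_lt (le_max_left _ _) ha
        have hv1 : -x < v := lt_of_le_of_lt (le_max_right _ _) ha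
        refine ⟨by linarith, hv0, ?_⟩
        have : (v - vs) * (v - (-x - s) / 2) = v * (x + v) - 1 := by
          rw [hvs]; nlinarith [hs2]
        have h2 : (v - vs) * (v - (-x - s) / 2) < 0 :=
          mul_neg_of_neg_of_pos (by linarith) (by linarith)
        linarith
    by_cases h : m < v ∧ v < vs
    · rw [if_pos h, if_pos (hiff.2 h)]
    · rw [if_neg h, if_neg (fun hh => h (hiff.1 hh))]
  simp only [h1]
  rw [lint_ite_Ioo, lint_Ioo (F := fun v => x * v + v ^ 2) hmv]
  · rw [← ENNReal.ofReal_one]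
    congr 1
    have e1 : x * vs + vs ^ 2 = 1 := by rw [hvs]; nlinarith [hs2]
    have e2 : x * m + m ^ 2 = 0 := by linarith [hm0, sq m, mul_add m x m]
    rw [e1, e2, sub_zero]
  · intro t
    have h := ((hasDerivAt_id t).const_mul x).add ((hasDerivAt_id t).pow 2)
    refine (h.congr_of_eventuallyEq (Filter.Eventually.of_forall fun y => by simp)).congr_deriv ?_
    simp
  · fun_prop
  · intro t ht
    have a1 : 0 < t := lt_of_le_of_lt (le_max_left _ _) ht.1
    have a2 : -x < t := lt_of_le_of_lt (le_max_right _ _) ht.1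
    linarith

/-- the pair lemma: Lebesgue measure on the line is the image of `(u + v) du dv` on
`u, v > 0`, `u v < 1` under `(u, v) ↦ u - v` -/
theorem lint_pair {h : ℝ → ℝ≥0∞} (hh : Measurable h) :
    ∫⁻ u : ℝ, (if 0 < u then ∫⁻ v : ℝ,
      (if 0 < v ∧ v * u < 1 then ENNReal.ofReal (u + v) * h (u - v) else 0) else 0)
      = ∫⁻ x : ℝ, h x := by
  have h1 : ∀ u : ℝ, (if 0 < u then ∫⁻ v : ℝ,
      (if 0 < v ∧ v * u < 1 then ENNReal.ofReal (u + v) * h (u - v) else 0) else 0)
      = ∫⁻ v : ℝ, (if 0 < u ∧ 0 < v ∧ v * u < 1 then ENNReal.ofReal (u + v) * h (u - v) else 0) := by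
    intro u
    by_cases hu : 0 < u
    · simp [hu]
    · simp [hu]
  simp only [h1]
  have hmeas : Measurable (fun p : ℝ × ℝ =>
      (if 0 < p.1 ∧ 0 < p.2 ∧ p.2 * p.1 < 1 then
        ENNReal.ofReal (p.1 + p.2) * h (p.1 - p.2) else 0)) := by
    refine Measurable.ite ?_ ?_ measurable_const
    · exact (measurableSet_lt measurable_const measurable_fst).inter
        ((measurableSet_lt measurable_const measurable_snd).inter
          (measurableSet_lt (measurable_snd.mul measurable_fst) measurable_const))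
    · exact (by fun_prop : Measurable fun p : ℝ × ℝ => ENNReal.ofReal (p.1 + p.2)).mul
        (hh.comp (by fun_prop))
  rw [lintegral_lintegral_swap hmeas.aemeasurable]
  have h2 : ∀ v : ℝ, ∫⁻ u : ℝ,
      (if 0 < u ∧ 0 < v ∧ v * u < 1 then ENNReal.ofReal (u + v) * h (u - v) else 0)
      = ∫⁻ x : ℝ, (if 0 < x + v ∧ 0 < v ∧ v * (x + v) < 1 then
          ENNReal.ofReal (x + 2 * v) else 0) * h x := by
    intro v
    rw [← lintegral_add_right_eq_self (fun u : ℝ =>
      (if 0 < u ∧ 0 < v ∧ v * u < 1 then ENNReal.ofReal (u + v) * h (u - v) else 0)) v]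
    refine lintegral_congr fun x => ?_
    by_cases hc : 0 < x + v ∧ 0 < v ∧ v * (x + v) < 1
    · rw [if_pos hc, if_pos hc]
      have e1 : x + v + v = x + 2 * v := by ring
      have e2 : x + v - v = x := by ring
      rw [e1, e2]
    · rw [if_neg hc, if_neg hc, zero_mul]
  simp only [h2]
  rw [lintegral_lintegral_swap]
  · refine lintegral_congr fun x => ?_
    rw [lintegral_mul_const'' (h x), lint_inner, one_mul]
    refine (Measurable.ite ?_ (by fun_prop) measurable_const).aemeasurable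
    have m1 : MeasurableSet {v : ℝ | 0 < x + v} := measurableSet_lt (by fun_prop) (by fun_prop)
    have m2 : MeasurableSet {v : ℝ | 0 < v} := measurableSet_lt (by fun_prop) (by fun_prop)
    have m3 : MeasurableSet {v : ℝ | v * (x + v) < 1} :=
      measurableSet_lt (by fun_prop) (by fun_prop)
    exact m1.inter (m2.inter m3)
  · refine (Measurable.mul (Measurable.ite ?_ (by fun_prop) measurable_const)
      (hh.comp measurable_snd)).aemeasurable
    have m1 : MeasurableSet {p : ℝ × ℝ | 0 < p.2 + p.1} :=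
      measurableSet_lt (by fun_prop) (by fun_prop)
    have m2 : MeasurableSet {p : ℝ × ℝ | 0 < p.1} := measurableSet_lt (by fun_prop) (by fun_prop)
    have m3 : MeasurableSet {p : ℝ × ℝ | p.1 * (p.2 + p.1) < 1} :=
      measurableSet_lt (by fun_prop) (by fun_prop)
    exact m1.inter (m2.inter m3)

end Pool.Agent.Lib.MP_bbe012_lc.QV
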