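import Mathlib
import Pool.Agent.Lib.MP_bbe012_lc.Defs

/-!
# Programs: iterated integrals with elementary constraints

An instruction introduces one new real variable `x_N`, where `N` is the number of variables
introduced before it, together with one or two inequalities.
-/

namespace Pool.Agent.Lib.MP_bbe012_lc.QV

open MeasureTheory Set Function
open scoped ENNReal Classical

/-- Codes of instructions `(kind, index, constant)`. Each introduces the new variable `x_N`:
`(0, _, _)` with `0 < x_N`;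
`(1, i, _)` with `0 < x_N < x_i`;
`(2, i, _)` with `0 < x_N < x_i + x_{i+1}`;
`(3, _, _)` with `0 < x_N` and `x_N x_{N-1} < 1`;
`(4, _, c)` with `x_N < c`;
`(5, i, _)` with `x_N < x_i x_{N-1}`;
`(6, b, _)` with `x_N < x_{N-1-b} + x_{N-1}`;
all others with `0 < x_N < x_{N-1}`. -/
abbrev Ins := ℕ × ℕ × QCode

/-- A program is a list of instructions. -/
abbrev Prog := List Ins

/-- The constraints of the instruction `a` hold at `e`. -/
def Ok (a : Ins) (N : ℕ) (e : ℕ → ℝ) : Prop :=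
  match a.1 with
  | 0 => 0 < e N
  | 1 => 0 < e N ∧ e N < e a.2.1
  | 2 => 0 < e N ∧ e N < e a.2.1 + e (a.2.1 + 1)
  | 3 => 0 < e N ∧ e N * e (N - 1) < 1
  | 4 => e N < (qval a.2.2 : ℝ)
  | 5 => e N < e a.2.1 * e (N - 1)
  | 6 => e N < e (N - 1 - a.2.1) + e (N - 1)
  | _ => 0 < e N ∧ e N < e (N - 1)

/-- The constraints of the instruction only involve variables introduced before. -/
def Scoped (a : Ins) (N : ℕ) : Prop :=
  match a.1 with
  | 0 => True
  | 1 => a.2.1 < N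
  | 2 => a.2.1 + 1 < N
  | 3 => 1 ≤ N
  | 4 => True
  | 5 => 1 ≤ N ∧ a.2.1 < N
  | 6 => 1 ≤ N
  | _ => 1 ≤ N

/-- All instructions are scoped. -/
def ScopedP : ℕ → Prog → Prop
  | _, [] => True
  | N, a :: P => Scoped a N ∧ ScopedP (N + 1) P

/-- All constraints hold. -/
def OkAll : ℕ → Prog → (ℕ → ℝ) → Prop
  | _, [], _ => True
  | N, a :: P, e => Ok a N e ∧ OkAll (N + 1) P e

/-- The iterated integral of `κ` over the variables introduced by the program. -/
noncomputable def run : ℕ → Prog → (ℕ → ℝ) → ((ℕ → ℝ) → ℝ≥0∞) → ℝ≥0∞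
  | _, [], e, κ => κ e
  | N, a :: P, e, κ =>
    ∫⁻ t : ℝ, if Ok a N (update e N t) then run (N + 1) P (update e N t) κ else 0

/-- Iterated integral over `k` variables. -/
noncomputable def iter : ℕ → ℕ → (ℕ → ℝ) → ((ℕ → ℝ) → ℝ≥0∞) → ℝ≥0∞
  | _, 0, e, G => G e
  | N, k + 1, e, G => ∫⁻ t : ℝ, iter (N + 1) k (update e N t) G

/-- Put the coordinates of `x` at the positions `N, ..., N + n - 1`. -/
def putAt (N n : ℕ) (x : Fin n → ℝ) (e : ℕ → ℝ) : ℕ → ℝ := fun i =>
  if h : N ≤ i ∧ i < N + n then x ⟨i - N, by omega⟩ else e i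

/-- The inequalities `p > 0` of an instruction. -/
def cons (N : ℕ) (a : Ins) : List PCode :=
  match a.1 with
  | 0 => [pcVar N]
  | 1 => [pcVar N, pcVar a.2.1 ++ pcNeg (pcVar N)]
  | 2 => [pcVar N, (pcVar a.2.1 ++ pcVar (a.2.1 + 1)) ++ pcNeg (pcVar N)]
  | 3 => [pcVar N, pcNat 1 ++ pcNeg (pcMul (pcVar N) (pcVar (N - 1)))]
  | 4 => [[(a.2.2, [])] ++ pcNeg (pcVar N)]
  | 5 => [pcMul (pcVar a.2.1) (pcVar (N - 1)) ++ pcNeg (pcVar N)]
  | 6 => [(pcVar (N - 1 - a.2.1) ++ pcVar (N - 1)) ++ pcNeg (pcVar N)]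
  | _ => [pcVar N, pcVar (N - 1) ++ pcNeg (pcVar N)]

/-- The system of inequalities of a program. -/
def sys : ℕ → Prog → List PCode
  | _, [] => []
  | N, a :: P => cons N a ++ sys (N + 1) P

/-- The subset of `ℝ^n` defined by the strict inequalities `p > 0`, `p ∈ S`. -/
def qSet (n : ℕ) (S : List PCode) : Set (Fin n → ℝ) := {x | ∀ p ∈ S, 0 < pcEval n p x}

/-- The code `p` is a code of one of the polynomials `x_i`, `c - x_i`, `x_j - x_i`,
`x_j + x_k - x_i`, `x_j x_k - x_i`, `1 - x_i x_j` (`c` rational). -/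
def Elementary (n : ℕ) (p : PCode) : Prop :=
  (∃ i : Fin n, pcPoly n p = MvPolynomial.X i) ∨
  (∃ (i : Fin n) (c : ℚ), pcPoly n p = MvPolynomial.C c - MvPolynomial.X i) ∨
  (∃ i j : Fin n, pcPoly n p = MvPolynomial.X j - MvPolynomial.X i) ∨
  (∃ i j k : Fin n, pcPoly n p = MvPolynomial.X j + MvPolynomial.X k - MvPolynomial.X i) ∨
  (∃ i j k : Fin n, pcPoly n p = MvPolynomial.X j * MvPolynomial.X k - MvPolynomial.X i) ∨
  (∃ i j : Fin n, pcPoly n p = 1 - MvPolynomial.X i * MvPolynomial.X j)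

end Pool.Agent.Lib.MP_bbe012_lc.QV
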