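import Mathlib
import Pool.Agent.Lib.MP_bbe012_lc.QV.Prog
import Pool.Agent.Lib.MP_bbe012_lc.Eval

/-!
# The value of a program is the volume of the set defined by its system of inequalities
-/

namespace Pool.Agent.Lib.MP_bbe012_lc.QV

open MeasureTheory Set Function
open scoped ENNReal Classical

theorem ok_congr {a : Ins} {N : ℕ} {e e' : ℕ → ℝ} (hs : Scoped a N) (h : ∀ i ≤ N, e' i = e i) :
    Ok a N e' ↔ Ok a N e := by
  obtain ⟨k, i, c⟩ := a
  match k with
  | 0 => simp only [Ok]; rw [h N le_rfl]
  | 1 => simp only [Ok, Scoped] at *; rw [h N le_rfl, h i (by omega)]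
  | 2 => simp only [Ok, Scoped] at *; rw [h N le_rfl, h i (by omega), h (i + 1) (by omega)]
  | 3 => simp only [Ok, Scoped] at *; rw [h N le_rfl, h (N - 1) (by omega)]
  | 4 => simp only [Ok]; rw [h N le_rfl]
  | 5 => simp only [Ok, Scoped] at *; rw [h N le_rfl, h i (by omega), h (N - 1) (by omega)]
  | 6 =>
    simp only [Ok, Scoped] at *; rw [h N le_rfl, h (N - 1 - i) (by omega), h (N - 1) (by omega)]
  | (k + 7) => simp only [Ok, Scoped] at *; rw [h N le_rfl, h (N - 1) (by omega)]

theorem iter_ite {M k : ℕ} {e : ℕ → ℝ} {p : Prop} {q : (ℕ → ℝ) → Prop} {G : (ℕ → ℝ) → ℝ≥0∞}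
    (h : ∀ e' : ℕ → ℝ, (∀ i < M, e' i = e i) → (q e' ↔ p)) :
    iter M k e (fun e' => if q e' then G e' else 0) = if p then iter M k e G else 0 := by
  induction k generalizing M e with
  | zero =>
    simp only [iter]
    by_cases hp : p
    · rw [if_pos hp, if_pos ((h e fun _ _ => rfl).2 hp)]
    · rw [if_neg hp, if_neg (fun hq => hp ((h e fun _ _ => rfl).1 hq))]
  | succ k ih =>
    simp only [iter]
    have : ∀ t : ℝ, iter (M + 1) k (update e M t) (fun e' => if q e' then G e' else 0)
        = if p then iter (M + 1) k (update e M t) G else 0 := by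
      intro t
      refine ih fun e' he' => h e' fun i hi => ?_
      rw [he' i (by omega), update_of_ne (by omega)]
    simp only [this]
    by_cases hp : p
    · simp [hp]
    · simp [hp]

theorem run_eq_iter {N : ℕ} {P : Prog} (hP : ScopedP N P) (e : ℕ → ℝ) (κ : (ℕ → ℝ) → ℝ≥0∞) :
    run N P e κ = iter N P.length e (fun e' => if OkAll N P e' then κ e' else 0) := by
  induction P generalizing N e with
  | nil => simp [run, iter, OkAll]
  | cons a P ih =>
    simp only [run, List.length_cons, iter]
    refine lintegral_congr fun t => ?_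
    have h1 := ih hP.2 (update e N t)
    have h2 : iter (N + 1) P.length (update e N t)
        (fun e' => if OkAll N (a :: P) e' then κ e' else 0)
        = if Ok a N (update e N t) then iter (N + 1) P.length (update e N t)
          (fun e' => if OkAll (N + 1) P e' then κ e' else 0) else 0 := by
      rw [← iter_ite (q := fun e' => Ok a N e')
        (fun e' he' => ok_congr hP.1 fun i hi => he' i (by omega))]
      congr 1
      ext e'
      have hiff : OkAll N (a :: P) e' ↔ Ok a N e' ∧ OkAll (N + 1) P e' := Iff.rfl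
      by_cases h : Ok a N e'
      · by_cases h' : OkAll (N + 1) P e'
        · rw [if_pos h, if_pos h', if_pos (hiff.2 ⟨h, h'⟩)]
        · rw [if_pos h, if_neg h', if_neg (fun hh => h' (hiff.1 hh).2)]
      · rw [if_neg h, if_neg (fun hh => h (hiff.1 hh).1)]
    rw [h2, ← h1]

theorem putAt_zero (N : ℕ) (x : Fin 0 → ℝ) (e : ℕ → ℝ) : putAt N 0 x e = e := by
  ext i
  unfold putAt
  rw [dif_neg (by omega)]

theorem putAt_cons (N n : ℕ) (t : ℝ) (x : Fin n → ℝ) (e : ℕ → ℝ) :
    putAt N (n + 1) (Fin.cons t x) e = putAt (N + 1) n x (update e N t) := by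
  ext i
  unfold putAt
  by_cases h1 : i = N
  · subst h1
    rw [dif_pos (by omega), dif_neg (by omega), update_self]
    have : (⟨i - i, by omega⟩ : Fin (n + 1)) = 0 := by ext; simp
    rw [this, Fin.cons_zero]
  · by_cases h2 : N + 1 ≤ i ∧ i < N + 1 + n
    · rw [dif_pos (by omega), dif_pos h2]
      have : (⟨i - N, by omega⟩ : Fin (n + 1)) = Fin.succ ⟨i - (N + 1), by omega⟩ := by
        ext; simp; omega
      rw [this, Fin.cons_succ]
    · rw [dif_neg (by omega), dif_neg h2, update_of_ne h1]

theorem measurable_putAt (N n : ℕ) (e : ℕ → ℝ) :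
    Measurable fun x : Fin n → ℝ => putAt N n x e := by
  refine measurable_pi_lambda _ fun i => ?_
  unfold putAt
  by_cases h : N ≤ i ∧ i < N + n
  · simp only [h, and_self, dif_pos]
    exact measurable_pi_apply _
  · simp only [h, dif_neg, not_false_eq_true]
    exact measurable_const

theorem iter_eq_lintegral {N n : ℕ} (e : ℕ → ℝ) {G : (ℕ → ℝ) → ℝ≥0∞} (hG : Measurable G) :
    iter N n e G = ∫⁻ x : Fin n → ℝ, G (putAt N n x e) := by
  induction n generalizing N e with
  | zero =>
    simp only [iter, putAt_zero, lintegral_const]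
    rw [Measure.volume_pi_eq_dirac (0 : Fin 0 → ℝ)]
    simp
  | succ n ih =>
    simp only [iter]
    have h1 : ∀ t : ℝ, iter (N + 1) n (update e N t) G
        = ∫⁻ x : Fin n → ℝ, G (putAt N (n + 1) (Fin.cons t x) e) := by
      intro t
      rw [ih]
      simp only [putAt_cons]
    simp only [h1]
    have hm : Measurable fun y : Fin (n + 1) → ℝ => G (putAt N (n + 1) y e) :=
      hG.comp (measurable_putAt N (n + 1) e)
    have hmp := (volume_preserving_piFinSuccAbove (fun _ : Fin (n + 1) => ℝ) 0).symm
    have h2 := hmp.lintegral_comp hm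
    rw [← h2, Measure.volume_eq_prod, lintegral_prod]
    · refine lintegral_congr fun t => lintegral_congr fun x => ?_
      congr 2
      change Fin.cons t x = (Fin.insertNthEquiv (fun _ => ℝ) 0) (t, x)
      ext i
      simp [Fin.insertNthEquiv, Fin.insertNth_zero']
    · exact (hm.comp hmp.measurable).aemeasurable

theorem ok_iff_cons {a : Ins} {N n : ℕ} (hs : Scoped a N) (hN : N < n) (x : Fin n → ℝ)
    (e : ℕ → ℝ) : Ok a N (putAt 0 n x e) ↔ ∀ p ∈ cons N a, 0 < pcEval n p x := by
  have hv : ∀ i, i < n → pcEval n (pcVar i) x = putAt 0 n x e i := by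
    intro i hi
    rw [pcEval_var hi]
    unfold putAt
    rw [dif_pos (by omega)]
    rfl
  have hconst : ∀ c : QCode, pcEval n [(c, [])] x = (qval c : ℝ) := by
    intro c
    rw [pcEval_cons]
    simp
  obtain ⟨k, i, c⟩ := a
  match k with
  | 0 => simp only [Ok, cons, List.mem_singleton, forall_eq]; rw [hv N hN]
  | 1 =>
    simp only [Ok, Scoped, cons, List.mem_cons, List.not_mem_nil, or_false, forall_eq_or_imp,
      forall_eq, pcEval_append, pcEval_neg] at *
    rw [hv N hN, hv i (by omega), ← sub_eq_add_neg, sub_pos]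
  | 2 =>
    simp only [Ok, Scoped, cons, List.mem_cons, List.not_mem_nil, or_false, forall_eq_or_imp,
      forall_eq, pcEval_append, pcEval_neg] at *
    rw [hv N hN, hv i (by omega), hv (i + 1) (by omega), ← sub_eq_add_neg, sub_pos]
  | 3 =>
    simp only [Ok, Scoped, cons, List.mem_cons, List.not_mem_nil, or_false, forall_eq_or_imp,
      forall_eq, pcEval_append, pcEval_neg, pcEval_nat, pcEval_mul, Nat.cast_one] at *
    rw [hv N hN, hv (N - 1) (by omega), ← sub_eq_add_neg, sub_pos]
  | 4 =>
    simp only [Ok, cons, List.mem_singleton, forall_eq, pcEval_append, pcEval_neg]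
    rw [hv N hN, hconst, ← sub_eq_add_neg, sub_pos]
  | 5 =>
    simp only [Ok, Scoped, cons, List.mem_singleton, forall_eq, pcEval_append, pcEval_neg,
      pcEval_mul] at *
    rw [hv N hN, hv (N - 1) (by omega), hv i (by omega), ← sub_eq_add_neg, sub_pos]
  | 6 =>
    simp only [Ok, Scoped, cons, List.mem_singleton, forall_eq, pcEval_append, pcEval_neg] at *
    rw [hv N hN, hv (N - 1) (by omega), hv (N - 1 - i) (by omega), ← sub_eq_add_neg, sub_pos]
  | (k + 7) =>
    simp only [Ok, Scoped, cons, List.mem_cons, List.not_mem_nil, or_false, forall_eq_or_imp,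
      forall_eq, pcEval_append, pcEval_neg] at *
    rw [hv N hN, hv (N - 1) (by omega), ← sub_eq_add_neg, sub_pos]

theorem okAll_iff_sys {N n : ℕ} {P : Prog} (hP : ScopedP N P) (hn : N + P.length ≤ n)
    (x : Fin n → ℝ) (e : ℕ → ℝ) :
    OkAll N P (putAt 0 n x e) ↔ ∀ p ∈ sys N P, 0 < pcEval n p x := by
  induction P generalizing N with
  | nil => simp [OkAll, sys]
  | cons a P ih =>
    simp only [List.length_cons] at hn
    simp only [OkAll, sys, List.mem_append]
    rw [ok_iff_cons hP.1 (by omega), ih hP.2 (by omega)]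
    constructor
    · rintro ⟨h1, h2⟩ p (hp | hp)
      · exact h1 p hp
      · exact h2 p hp
    · intro h
      exact ⟨fun p hp => h p (Or.inl hp), fun p hp => h p (Or.inr hp)⟩

theorem measurableSet_qSet (n : ℕ) (S : List PCode) : MeasurableSet (qSet n S) := by
  have : qSet n S = ⋂ p ∈ {p | p ∈ S}, {x | 0 < pcEval n p x} := by
    ext x; simp [qSet]
  rw [this]
  refine MeasurableSet.biInter (S.finite_toSet.countable) fun p _ => ?_
  exact measurableSet_lt measurable_const (continuous_pcEval n p).measurable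

theorem measurable_okSet {a : Ins} {N : ℕ} : MeasurableSet {e : ℕ → ℝ | Ok a N e} := by
  obtain ⟨k, i, c⟩ := a
  match k with
  | 0 =>
    have h1 : MeasurableSet {e : ℕ → ℝ | 0 < e N} := measurableSet_lt (by fun_prop) (by fun_prop)
    exact h1
  | 1 =>
    have h1 : MeasurableSet {e : ℕ → ℝ | 0 < e N} := measurableSet_lt (by fun_prop) (by fun_prop)
    have h2 : MeasurableSet {e : ℕ → ℝ | e N < e i} :=
      measurableSet_lt (by fun_prop) (by fun_prop)
    exact h1.inter h2
  | 2 =>
    have h1 : MeasurableSet {e : ℕ → ℝ | 0 < e N} := measurableSet_lt (by fun_prop) (by fun_prop)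
    have h2 : MeasurableSet {e : ℕ → ℝ | e N < e i + e (i + 1)} :=
      measurableSet_lt (by fun_prop) (by fun_prop)
    exact h1.inter h2
  | 3 =>
    have h1 : MeasurableSet {e : ℕ → ℝ | 0 < e N} := measurableSet_lt (by fun_prop) (by fun_prop)
    have h2 : MeasurableSet {e : ℕ → ℝ | e N * e (N - 1) < 1} :=
      measurableSet_lt (by fun_prop) (by fun_prop)
    exact h1.inter h2
  | 4 =>
    have h1 : MeasurableSet {e : ℕ → ℝ | e N < (qval c : ℝ)} :=
      measurableSet_lt (by fun_prop) (by fun_prop)
    exact h1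
  | 5 =>
    have h1 : MeasurableSet {e : ℕ → ℝ | e N < e i * e (N - 1)} :=
      measurableSet_lt (by fun_prop) (by fun_prop)
    exact h1
  | 6 =>
    have h1 : MeasurableSet {e : ℕ → ℝ | e N < e (N - 1 - i) + e (N - 1)} :=
      measurableSet_lt (by fun_prop) (by fun_prop)
    exact h1
  | (k + 7) =>
    have h1 : MeasurableSet {e : ℕ → ℝ | 0 < e N} := measurableSet_lt (by fun_prop) (by fun_prop)
    have h2 : MeasurableSet {e : ℕ → ℝ | e N < e (N - 1)} :=
      measurableSet_lt (by fun_prop) (by fun_prop)
    exact h1.inter h2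

theorem measurable_okAllSet {P : Prog} {N : ℕ} : MeasurableSet {e : ℕ → ℝ | OkAll N P e} := by
  induction P generalizing N with
  | nil => simp [OkAll]
  | cons a P ih => exact measurable_okSet.inter ih

/-- The value of a program is the volume of the set defined by its system of inequalities. -/
theorem run_eq_volume {P : Prog} (hP : ScopedP 0 P) (e : ℕ → ℝ) :
    run 0 P e (fun _ => 1) = volume (qSet P.length (sys 0 P)) := by
  rw [run_eq_iter hP, iter_eq_lintegral e
    (Measurable.ite measurable_okAllSet measurable_const measurable_const)]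
  rw [← lintegral_indicator_one (measurableSet_qSet _ _)]
  refine lintegral_congr fun x => ?_
  by_cases h : x ∈ qSet P.length (sys 0 P)
  · rw [indicator_of_mem h, if_pos ((okAll_iff_sys hP (by omega) x e).2 h)]
    rfl
  · rw [indicator_of_notMem h, if_neg (fun h' => h ((okAll_iff_sys hP (by omega) x e).1 h'))]

end Pool.Agent.Lib.MP_bbe012_lc.QV
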