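import Mathlib
import Pool.Agent.Lib.MP_bbe012_lc.QV.Prog
import Pool.Agent.Lib.MP_bbe012_lc.QV.Calc

/-!
# Gadgets: programs computing truncated powers of polynomials in positive variables
-/

namespace Pool.Agent.Lib.MP_bbe012_lc.QV

open MeasureTheory Set Function
open scoped ENNReal Classical

/-- A term: a coefficient and the list of the variables of a monomial. -/
abbrev Term := QCode × List ℕ

/-- the code of zero -/
def qz : QCode := qnat 0

/-- value of a list of terms -/
noncomputable def evT (T : List Term) (e : ℕ → ℝ) : ℝ :=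
  (T.map fun t => (qval t.1 : ℝ) * (t.2.map e).prod).sum

def kT (T : List Term) : ℕ := (T.map fun t => t.2.length + 2).sum

/-- all nonempty tails, concatenated -/
def wm : List ℕ → List ℕ
  | [] => []
  | i :: m => (i :: m) ++ wm m

def wl (T : List Term) : List ℕ := T.flatMap fun t => wm t.2

def wProg (l : List ℕ) : Prog := l.map fun i => (1, i, qz)

def chainProg (m : List ℕ) : Prog := m.map fun i => (5, i, qz)

def termProg (t : Term) : Prog := (4, 0, t.1) :: (chainProg t.2 ++ [(6, t.2.length + 1, qz)])

def sumProg (T : List Term) : Prog := T.flatMap termProg ++ [(7, 0, qz)]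

def gad (T : List Term) : Prog := (4, 0, qz) :: sumProg T

/-- positive below `b` -/
def Pos (b : ℕ) (e : ℕ → ℝ) : Prop := ∀ i < b, 0 < e i

/-- depends only on the coordinates below `b` -/
def Below (b : ℕ) (κ : (ℕ → ℝ) → ℝ≥0∞) : Prop :=
  ∀ e e' : ℕ → ℝ, Pos b e → (∀ i < b, e' i = e i) → κ e' = κ e

/-- the inverse weight -/
noncomputable def WT (T : List Term) (e : ℕ → ℝ) : ℝ≥0∞ :=
  ENNReal.ofReal (((wl T).map e).prod)⁻¹

theorem run_append (N : ℕ) (P Q : Prog) (e : ℕ → ℝ) (κ : (ℕ → ℝ) → ℝ≥0∞) :
    run N (P ++ Q) e κ = run N P e (fun e' => run (N + P.length) Q e' κ) := by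
  induction P generalizing N e with
  | nil => simp [run]
  | cons a P ih =>
    simp only [List.cons_append, run, List.length_cons]
    refine lintegral_congr fun t => ?_
    rw [ih]
    have : N + 1 + P.length = N + (P.length + 1) := by omega
    rw [this]

theorem run_congr {N : ℕ} {P : Prog} {e : ℕ → ℝ} {κ κ' : (ℕ → ℝ) → ℝ≥0∞}
    (h : ∀ e' : ℕ → ℝ, (∀ i < N, e' i = e i) → κ e' = κ' e') : run N P e κ = run N P e κ' := by
  induction P generalizing N e with
  | nil => exact h e fun _ _ => rfl
  | cons a P ih =>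
    simp only [run]
    refine lintegral_congr fun t => ?_
    rw [ih fun e' he' => h e' fun i hi => by rw [he' i (by omega), update_of_ne (by omega)]]

theorem Pos.update {b N : ℕ} {e : ℕ → ℝ} (h : Pos b e) (hN : b ≤ N) (t : ℝ) :
    Pos b (update e N t) := fun i hi => by
  rw [update_of_ne (by omega)]; exact h i hi

theorem map_update {b N : ℕ} (hN : b ≤ N) {l : List ℕ} (hl : ∀ i ∈ l, i < b) (e : ℕ → ℝ) (t : ℝ) :
    l.map (update e N t) = l.map e := by
  refine List.map_congr_left fun i hi => ?_
  have := hl i hi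
  rw [update_of_ne (by omega)]

theorem prod_pos {b : ℕ} {e : ℕ → ℝ} (h : Pos b e) {l : List ℕ} (hl : ∀ i ∈ l, i < b) :
    0 < (l.map e).prod := by
  refine List.prod_pos fun x hx => ?_
  obtain ⟨i, hi, rfl⟩ := List.mem_map.1 hx
  exact h i (hl i hi)

theorem mem_wm {m : List ℕ} {i : ℕ} (h : i ∈ wm m) : i ∈ m := by
  induction m with
  | nil => simp [wm] at h
  | cons j m ih =>
    simp only [wm, List.mem_append] at h
    rcases h with h | h
    · exact h
    · exact List.mem_cons_of_mem _ (ih h)

theorem mem_wl {b : ℕ} {T : List Term} (hT : ∀ t ∈ T, ∀ i ∈ t.2, i < b) : ∀ i ∈ wl T, i < b := by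
  intro i hi
  obtain ⟨t, ht, hi'⟩ := List.mem_flatMap.1 hi
  exact hT t ht i (mem_wm hi')

theorem evT_update {b N : ℕ} (hN : b ≤ N) {T : List Term} (hT : ∀ t ∈ T, ∀ i ∈ t.2, i < b)
    (e : ℕ → ℝ) (t : ℝ) : evT T (update e N t) = evT T e := by
  unfold evT
  congr 1
  refine List.map_congr_left fun s hs => ?_
  rw [map_update hN (hT s hs)]

theorem WT_update {b N : ℕ} (hN : b ≤ N) {T : List Term} (hT : ∀ t ∈ T, ∀ i ∈ t.2, i < b)
    (e : ℕ → ℝ) (t : ℝ) : WT T (update e N t) = WT T e := by
  unfold WT
  rw [map_update hN (mem_wl hT)]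

theorem Below.update {b N : ℕ} {κ : (ℕ → ℝ) → ℝ≥0∞} (h : Below b κ) (hN : b ≤ N) {e : ℕ → ℝ}
    (he : Pos b e) (t : ℝ) : κ (update e N t) = κ e :=
  h e _ he fun i hi => by rw [update_of_ne (by omega)]

theorem run_wProg {b N : ℕ} (hN : b ≤ N) {l : List ℕ} (hl : ∀ i ∈ l, i < b) {e : ℕ → ℝ}
    (he : Pos b e) {κ : (ℕ → ℝ) → ℝ≥0∞} (hκ : Below b κ) :
    run N (wProg l) e κ = ENNReal.ofReal ((l.map e).prod) * κ e := by
  induction l generalizing N e with
  | nil => simp [wProg, run]
  | cons i l ih =>
    have hi : i < b := hl i List.mem_cons_self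
    have hl' : ∀ j ∈ l, j < b := fun j hj => hl j (List.mem_cons_of_mem _ hj)
    have h1 : ∀ t : ℝ, (if Ok (1, i, qz) N (Function.update e N t) then
        run (N + 1) (wProg l) (Function.update e N t) κ else 0)
        = if 0 < t ∧ t < e i then ENNReal.ofReal ((l.map e).prod) * κ e else 0 := by
      intro t
      rw [ih (by omega) hl' (he.update hN t), map_update hN hl', hκ.update hN he]
      simp only [Ok, update_self, update_of_ne (show i ≠ N by omega)]
    change ∫⁻ t : ℝ, (if Ok (1, i, qz) N (Function.update e N t) then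
        run (N + 1) (wProg l) (Function.update e N t) κ else 0) = _
    simp only [h1]
    rw [lint_ite_const, List.map_cons, List.prod_cons, ENNReal.ofReal_mul (he i hi).le, mul_assoc]

theorem lint_Iio_Pk' {k : ℕ} (hk : 1 ≤ k) {β γ : ℝ} (hγ : 0 < γ) (a : ℝ) (C : ℝ≥0∞) :
    ∫⁻ t : ℝ, (if t < a then Pk k (β + γ * t) * C else 0)
      = Pk (k + 1) (β + γ * a) * ENNReal.ofReal γ⁻¹ * C := by
  rw [← lint_Iio_Pk hk hγ a, ← lintegral_mul_const]
  · refine lintegral_congr fun t => ?_
    split_ifs <;> simp
  · exact Measurable.ite measurableSet_Iio ((measurable_Pk k).comp (by fun_prop)) measurable_const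

theorem wm_prod (m : List ℕ) (e : ℕ → ℝ) :
    ((wm m).map e).prod = (m.map e).prod * ((wm m.tail).map e).prod := by
  cases m with
  | nil => simp [wm]
  | cons i m => simp [wm, List.map_append, List.prod_append, mul_assoc]

theorem run_chain {b : ℕ} {T : List Term} (hT : ∀ t ∈ T, ∀ i ∈ t.2, i < b)
    {κ : (ℕ → ℝ) → ℝ≥0∞} (hκ : Below b κ)
    (hrun : ∀ (N : ℕ) (e : ℕ → ℝ), b < N → Pos b e →
      run N (sumProg T) e κ = Pk (kT T + 1) (e (N - 1) + evT T e) * WT T e * κ e)
    {N : ℕ} {m : List ℕ} {q : ℕ} (hm : ∀ i ∈ m, i < b) (hq : b + q ≤ N - 1 + m.length)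
    (hq' : m.length < q) (hN : 1 ≤ N) {e : ℕ → ℝ} (he : Pos b e) :
    run N (chainProg m ++ (6, q, qz) :: sumProg T) e κ
      = Pk (kT T + 2 + m.length)
          (e (N - 1 + m.length - q) + e (N - 1) * (m.map e).prod + evT T e)
        * ENNReal.ofReal (((wm m.tail).map e).prod)⁻¹ * WT T e * κ e := by
  induction m generalizing N e with
  | nil =>
    simp only [List.length_nil, add_zero] at hq hq'
    have h1 : ∀ t : ℝ, (if Ok (6, q, qz) N (Function.update e N t) then
        run (N + 1) (sumProg T) (Function.update e N t) κ else 0)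
        = if t < e (N - 1 - q) + e (N - 1) then
          Pk (kT T + 1) (evT T e + 1 * t) * (WT T e * κ e) else 0 := by
      intro t
      rw [hrun (N + 1) _ (by omega) (he.update (by omega) t), evT_update (by omega) hT,
        WT_update (by omega) hT, hκ.update (by omega) he]
      simp only [Ok, Nat.add_sub_cancel, update_self, update_of_ne (show N - 1 - q ≠ N by omega),
        update_of_ne (show N - 1 ≠ N by omega)]
      rw [one_mul, add_comm t, mul_assoc]
    change ∫⁻ t : ℝ, (if Ok (6, q, qz) N (Function.update e N t) then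
        run (N + 1) (sumProg T) (Function.update e N t) κ else 0) = _
    simp only [h1]
    rw [lint_Iio_Pk' (by omega) one_pos]
    simp only [wm, List.tail_nil, List.map_nil, List.prod_nil, inv_one, ENNReal.ofReal_one,
      mul_one, one_mul, List.length_nil, add_zero]
    rw [add_comm (evT T e), mul_assoc]
  | cons i m ih =>
    simp only [List.length_cons] at hq hq'
    have hi : i < b := hm i List.mem_cons_self
    have hm' : ∀ j ∈ m, j < b := fun j hj => hm j (List.mem_cons_of_mem _ hj)
    have hγ := prod_pos he hm'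
    have h1 : ∀ t : ℝ, (if Ok (5, i, qz) N (Function.update e N t) then
        run (N + 1) (chainProg m ++ (6, q, qz) :: sumProg T) (Function.update e N t) κ else 0)
        = if t < e i * e (N - 1) then
          Pk (kT T + 2 + m.length)
            ((e (N - 1 + (m.length + 1) - q) + evT T e) + (m.map e).prod * t)
          * (ENNReal.ofReal (((wm m.tail).map e).prod)⁻¹ * WT T e * κ e) else 0 := by
      intro t
      have hmt : ∀ j ∈ wm m.tail, j < b := fun j hj =>
        hm' j (List.mem_of_mem_tail (mem_wm hj))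
      rw [ih hm' (by omega) (by omega) (by omega) (he.update (by omega) t),
        evT_update (by omega) hT, WT_update (by omega) hT, hκ.update (by omega) he,
        map_update (by omega) hm', map_update (by omega) hmt]
      have e1 : N + 1 - 1 + m.length - q = N - 1 + (m.length + 1) - q := by omega
      rw [e1]
      simp only [Ok, Nat.add_sub_cancel, update_self,
        update_of_ne (show N - 1 + (m.length + 1) - q ≠ N by omega),
        update_of_ne (show N - 1 ≠ N by omega), update_of_ne (show i ≠ N by omega)]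
      have e2 : e (N - 1 + (m.length + 1) - q) + t * (m.map e).prod + evT T e
          = e (N - 1 + (m.length + 1) - q) + evT T e + (m.map e).prod * t := by ring
      rw [e2, mul_assoc, mul_assoc, mul_assoc]
    change ∫⁻ t : ℝ, (if Ok (5, i, qz) N (Function.update e N t) then
        run (N + 1) (chainProg m ++ (6, q, qz) :: sumProg T) (Function.update e N t) κ else 0) = _
    simp only [h1]
    rw [lint_Iio_Pk' (by omega) hγ]
    simp only [List.length_cons, List.map_cons, List.prod_cons, List.tail_cons]
    have e3 : e (N - 1 + (m.length + 1) - q) + evT T e + (m.map e).prod * (e i * e (N - 1))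
        = e (N - 1 + (m.length + 1) - q) + e (N - 1) * (e i * (m.map e).prod) + evT T e := by ring
    have e4 : ENNReal.ofReal ((m.map e).prod)⁻¹ * ENNReal.ofReal (((wm m.tail).map e).prod)⁻¹
        = ENNReal.ofReal (((wm m).map e).prod)⁻¹ := by
      rw [← ENNReal.ofReal_mul (by positivity), wm_prod m, mul_inv]
    rw [e3, ← e4]
    have e5 : kT T + 2 + m.length + 1 = kT T + 2 + (m.length + 1) := by omega
    rw [e5]
    ring

theorem WT_cons {b : ℕ} (t : Term) (T : List Term) {e : ℕ → ℝ} (he : Pos b e)
    (ht : ∀ i ∈ t.2, i < b) :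
    WT (t :: T) e = ENNReal.ofReal ((t.2.map e).prod)⁻¹
      * ENNReal.ofReal (((wm t.2.tail).map e).prod)⁻¹ * WT T e := by
  have h1 := prod_pos he ht
  have h2 := prod_pos he (l := wm t.2.tail) fun j hj => ht j (List.mem_of_mem_tail (mem_wm hj))
  unfold WT wl
  rw [List.flatMap_cons, List.map_append, List.prod_append, wm_prod, mul_inv, mul_inv,
    ENNReal.ofReal_mul (by positivity), ENNReal.ofReal_mul (by positivity)]

theorem run_sum {b : ℕ} {T : List Term} (hT : ∀ t ∈ T, ∀ i ∈ t.2, i < b)
    {κ : (ℕ → ℝ) → ℝ≥0∞} (hκ : Below b κ) :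
    ∀ (N : ℕ) (e : ℕ → ℝ), b < N → Pos b e →
      run N (sumProg T) e κ = Pk (kT T + 1) (e (N - 1) + evT T e) * WT T e * κ e := by
  induction T with
  | nil =>
    intro N e hN he
    have h1 : ∀ t : ℝ, (if Ok (7, 0, qz) N (Function.update e N t) then
        κ (Function.update e N t) else 0)
        = if 0 < t ∧ t < e (N - 1) then κ e else 0 := by
      intro t
      rw [hκ.update (by omega) he]
      simp only [Ok, update_self, update_of_ne (show N - 1 ≠ N by omega)]
    change ∫⁻ t : ℝ, (if Ok (7, 0, qz) N (Function.update e N t) then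
        κ (Function.update e N t) else 0) = _
    simp only [h1]
    rw [lint_ite_const]
    simp [kT, evT, WT, wl, Pk_one]
  | cons t T ih =>
    intro N e hN he
    have ht : ∀ i ∈ t.2, i < b := hT t List.mem_cons_self
    have hT' : ∀ s ∈ T, ∀ i ∈ s.2, i < b := fun s hs => hT s (List.mem_cons_of_mem _ hs)
    have hγ := prod_pos he ht
    have hprog : sumProg (t :: T)
        = (4, 0, t.1) :: (chainProg t.2 ++ (6, t.2.length + 1, qz) :: sumProg T) := by
      simp [sumProg, termProg]
    rw [hprog]
    have h1 : ∀ s : ℝ, (if Ok (4, 0, t.1) N (Function.update e N s) then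
        run (N + 1) (chainProg t.2 ++ (6, t.2.length + 1, qz) :: sumProg T)
          (Function.update e N s) κ else 0)
        = if s < (qval t.1 : ℝ) then
          Pk (kT T + 2 + t.2.length) ((e (N - 1) + evT T e) + (t.2.map e).prod * s)
          * (ENNReal.ofReal (((wm t.2.tail).map e).prod)⁻¹ * WT T e * κ e) else 0 := by
      intro s
      have hmt : ∀ j ∈ wm t.2.tail, j < b := fun j hj =>
        ht j (List.mem_of_mem_tail (mem_wm hj))
      rw [run_chain hT' hκ (ih hT') ht (by omega) (by omega) (by omega) (he.update (by omega) s),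
        evT_update (by omega) hT', WT_update (by omega) hT', hκ.update (by omega) he,
        map_update (by omega) ht, map_update (by omega) hmt]
      have e1 : N + 1 - 1 + t.2.length - (t.2.length + 1) = N - 1 := by omega
      rw [e1]
      simp only [Ok, Nat.add_sub_cancel, update_self, update_of_ne (show N - 1 ≠ N by omega)]
      have e2 : e (N - 1) + s * (t.2.map e).prod + evT T e
          = e (N - 1) + evT T e + (t.2.map e).prod * s := by ring
      rw [e2, mul_assoc, mul_assoc, mul_assoc]
    change ∫⁻ s : ℝ, (if Ok (4, 0, t.1) N (Function.update e N s) then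
        run (N + 1) (chainProg t.2 ++ (6, t.2.length + 1, qz) :: sumProg T)
          (Function.update e N s) κ else 0) = _
    simp only [h1]
    rw [lint_Iio_Pk' (by omega) hγ, WT_cons t T he ht]
    have e3 : e (N - 1) + evT (t :: T) e
        = e (N - 1) + evT T e + (t.2.map e).prod * (qval t.1 : ℝ) := by
      simp only [evT, List.map_cons, List.sum_cons]
      ring
    have e4 : kT (t :: T) + 1 = kT T + 2 + t.2.length + 1 := by
      simp only [kT, List.map_cons, List.sum_cons]
      omega
    rw [e3, e4]
    ring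

theorem run_gad {b N : ℕ} (hN : b ≤ N) {T : List Term} (hT : ∀ t ∈ T, ∀ i ∈ t.2, i < b)
    {κ : (ℕ → ℝ) → ℝ≥0∞} (hκ : Below b κ) {e : ℕ → ℝ} (he : Pos b e) :
    run N (gad T) e κ = Pk (kT T + 2) (evT T e) * WT T e * κ e := by
  have h1 : ∀ s : ℝ, (if Ok (4, 0, qz) N (Function.update e N s) then
      run (N + 1) (sumProg T) (Function.update e N s) κ else 0)
      = if s < 0 then Pk (kT T + 1) (evT T e + 1 * s) * (WT T e * κ e) else 0 := by
    intro s
    rw [run_sum hT hκ (N + 1) _ (by omega) (he.update (by omega) s), evT_update (by omega) hT,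
      WT_update (by omega) hT, hκ.update (by omega) he]
    simp only [Ok, Nat.add_sub_cancel, update_self]
    have e0 : ((qval qz : ℚ) : ℝ) = 0 := by simp [qz]
    rw [e0, one_mul, add_comm s, mul_assoc]
  change ∫⁻ s : ℝ, (if Ok (4, 0, qz) N (Function.update e N s) then
      run (N + 1) (sumProg T) (Function.update e N s) κ else 0) = _
  simp only [h1]
  rw [lint_Iio_Pk' (by omega) one_pos]
  simp only [inv_one, ENNReal.ofReal_one, mul_one, mul_zero, add_zero]
  rw [mul_assoc]

end Pool.Agent.Lib.MP_bbe012_lc.QV
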