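import Mathlib
import Pool.Agent.Lib.MP_bbe012_lc.QV.Conv
import Pool.Agent.Lib.MP_bbe012_lc.QV.Gadget

/-!
# The full program
-/

namespace Pool.Agent.Lib.MP_bbe012_lc.QV

open MeasureTheory Set Function
open scoped ENNReal Classical

def pairProg : Prog := [(0, 0, qz), (3, 0, qz)]

def baseProg : ℕ → Prog
  | 0 => []
  | M + 1 => baseProg M ++ pairProg

def pwProg (l : List ℕ) : Prog := l.map fun i => (2, 2 * i, qz)

/-- the terms of `1 - τ F` -/
def TG (τ : ℕ) (T : List Term) : List Term :=
  (qnat 1, []) :: T.map fun t => (qneg t.1, τ :: t.2)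

def wList (M : ℕ) (T : List Term) : List ℕ :=
  List.replicate (kT T + 1) (2 * M + 1) ++ (wl T ++ wl (TG (2 * M + 1) T))

def tailProg (M : ℕ) (T : List Term) : Prog :=
  (0, 0, qz) :: (0, 0, qz) ::
    (pwProg (List.range M) ++ (wProg (wList M T) ++ (gad T ++ gad (TG (2 * M + 1) T))))

def fullProg (M : ℕ) (T : List Term) : Prog := baseProg M ++ tailProg M T

/-- product of the weights of the pairs -/
noncomputable def pw (l : List ℕ) (e : ℕ → ℝ) : ℝ := (l.map fun i => e (2 * i) + e (2 * i + 1)).prod

/-- the point of `ℝ^M` -/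
noncomputable def xOf (M : ℕ) (e : ℕ → ℝ) : Fin M → ℝ := fun i => e (2 * i) - e (2 * i + 1)

/-- the constant of the full program -/
noncomputable def CC (T : List Term) : ℝ≥0∞ :=
  Pk (kT T + 2) 1 * Cst (kT T + 1) (kT T + T.length + 4)

theorem kT_TG (τ : ℕ) (T : List Term) : kT (TG τ T) = kT T + T.length + 2 := by
  have : ∀ T : List Term, (List.map (fun t : Term => t.2.length + 2)
      (T.map fun t => (qneg t.1, τ :: t.2))).sum = kT T + T.length := by
    intro T
    induction T with
    | nil => simp [kT]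
    | cons t T ih =>
      simp only [List.map_cons, List.sum_cons, List.length_cons, ih, kT]
      omega
  unfold TG
  simp only [kT, List.map_cons, List.sum_cons, List.length_nil]
  have h := this T
  simp only [kT] at h
  rw [h]
  omega

theorem evT_TG (τ : ℕ) (T : List Term) (e : ℕ → ℝ) : evT (TG τ T) e = 1 - e τ * evT T e := by
  have : ∀ T : List Term, evT (T.map fun t => (qneg t.1, τ :: t.2)) e = - (e τ * evT T e) := by
    intro T
    induction T with
    | nil => simp [evT]
    | cons t T ih =>
      have h1 : evT (List.map (fun t : Term => (qneg t.1, τ :: t.2)) (t :: T)) e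
          = (qval (qneg t.1) : ℝ) * (((τ :: t.2).map e).prod)
            + evT (List.map (fun t : Term => (qneg t.1, τ :: t.2)) T) e := by
        simp [evT]
      have h2 : evT (t :: T) e = (qval t.1 : ℝ) * ((t.2.map e).prod) + evT T e := by simp [evT]
      rw [h1, ih, h2, qval_qneg]
      simp only [List.map_cons, List.prod_cons]
      push_cast
      ring
  have h1 : evT (TG τ T) e = (qval (qnat 1) : ℝ) * 1
      + evT (T.map fun t => (qneg t.1, τ :: t.2)) e := by
    simp [evT, TG]
  rw [h1, this]
  simp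
  ring

theorem length_baseProg (M : ℕ) : (baseProg M).length = 2 * M := by
  induction M with
  | zero => rfl
  | succ M ih => simp [baseProg, pairProg, ih]; omega

/-! ### scoping -/

theorem scopedP_append {N : ℕ} {P Q : Prog} (h1 : ScopedP N P) (h2 : ScopedP (N + P.length) Q) :
    ScopedP N (P ++ Q) := by
  induction P generalizing N with
  | nil => simpa using h2
  | cons a P ih =>
    refine ⟨h1.1, ih h1.2 ?_⟩
    have : N + 1 + P.length = N + (a :: P).length := by simp; omega
    rwa [this]

theorem scopedP_map {β : Type} {N : ℕ} (l : List β) (f : β → Ins)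
    (h : ∀ i ∈ l, ∀ n, N ≤ n → Scoped (f i) n) : ScopedP N (l.map f) := by
  induction l generalizing N with
  | nil => trivial
  | cons i l ih =>
    refine ⟨h i List.mem_cons_self N le_rfl, ih fun j hj n hn => h j (List.mem_cons_of_mem _ hj) n ?_⟩
    omega

theorem scopedP_gad {b N : ℕ} (hN : b ≤ N) {T : List Term}
    (hT : ∀ t ∈ T, ∀ i ∈ t.2, i < b) : ScopedP N (gad T) := by
  refine ⟨trivial, ?_⟩
  have : ∀ n, b < n → ScopedP n (sumProg T) := by
    induction T with
    | nil =>
      intro n hn
      exact ⟨show 1 ≤ n by omega, trivial⟩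
    | cons t T ih =>
      intro n hn
      have hT' : ∀ s ∈ T, ∀ i ∈ s.2, i < b := fun s hs => hT s (List.mem_cons_of_mem _ hs)
      have hprog : sumProg (t :: T) = termProg t ++ sumProg T := by simp [sumProg]
      rw [hprog]
      refine scopedP_append ?_ (ih hT' _ (by omega))
      refine ⟨trivial, scopedP_append (scopedP_map _ _ fun i hi m hm => ?_) ?_⟩
      · have := hT t List.mem_cons_self i hi
        exact ⟨by omega, show i < m by omega⟩
      · exact ⟨show 1 ≤ _ by omega, trivial⟩
  exact this _ (by omega)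

theorem wList_lt {M : ℕ} {T : List Term} (hT : ∀ t ∈ T, ∀ i ∈ t.2, i < 2 * M + 1) :
    (∀ t ∈ T, ∀ i ∈ t.2, i < 2 * M + 2) ∧
    (∀ t ∈ TG (2 * M + 1) T, ∀ i ∈ t.2, i < 2 * M + 2) ∧
    (∀ i ∈ wList M T, i < 2 * M + 2) := by
  have h1 : ∀ t ∈ T, ∀ i ∈ t.2, i < 2 * M + 2 := fun t ht i hi => by
    have := hT t ht i hi; omega
  have h2 : ∀ t ∈ TG (2 * M + 1) T, ∀ i ∈ t.2, i < 2 * M + 2 := by
    intro t ht i hi
    simp only [TG, List.mem_cons, List.mem_map] at ht
    rcases ht with rfl | ⟨s, hs, rfl⟩
    · simp at hi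
    · simp only [List.mem_cons] at hi
      rcases hi with rfl | hi
      · omega
      · exact h1 s hs i hi
  refine ⟨h1, h2, fun i hi => ?_⟩
  simp only [wList, List.mem_append, List.mem_replicate] at hi
  rcases hi with hi | hi | hi
  · omega
  · exact mem_wl h1 i hi
  · exact mem_wl h2 i hi

theorem scopedP_full {M : ℕ} {T : List Term} (hT : ∀ t ∈ T, ∀ i ∈ t.2, i < 2 * M + 1) :
    ScopedP 0 (fullProg M T) := by
  obtain ⟨h1, h2, h3⟩ := wList_lt hT
  have hb : ∀ M, ScopedP 0 (baseProg M) := by
    intro M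
    induction M with
    | zero => trivial
    | succ M ih =>
      refine scopedP_append ih ⟨trivial, ?_, trivial⟩
      show 1 ≤ _
      omega
  refine scopedP_append (hb M) ?_
  rw [length_baseProg, Nat.zero_add]
  refine ⟨trivial, trivial, ?_⟩
  refine scopedP_append (scopedP_map _ _ fun i hi n hn => ?_) ?_
  · have := List.mem_range.1 hi
    show 2 * i + 1 < n
    omega
  · refine scopedP_append (scopedP_map _ _ fun i hi n hn => ?_) ?_
    · have := h3 i hi
      show i < n
      omega
    · exact scopedP_append (scopedP_gad (by omega) h1) (scopedP_gad (by omega) h2)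

/-! ### the value of the tail -/

theorem evT_congr {b : ℕ} {T : List Term} (hT : ∀ t ∈ T, ∀ i ∈ t.2, i < b) {e e' : ℕ → ℝ}
    (h : ∀ i < b, e' i = e i) : evT T e' = evT T e := by
  unfold evT
  congr 1
  refine List.map_congr_left fun s hs => ?_
  have : s.2.map e' = s.2.map e := List.map_congr_left fun i hi => h i (hT s hs i hi)
  rw [this]

theorem prod_congr_list {b : ℕ} {l : List ℕ} (hl : ∀ i ∈ l, i < b) {e e' : ℕ → ℝ}
    (h : ∀ i < b, e' i = e i) : (l.map e').prod = (l.map e).prod := by
  have : l.map e' = l.map e := List.map_congr_left fun i hi => h i (hl i hi)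
  rw [this]

theorem WT_congr {b : ℕ} {T : List Term} (hT : ∀ t ∈ T, ∀ i ∈ t.2, i < b) {e e' : ℕ → ℝ}
    (h : ∀ i < b, e' i = e i) : WT T e' = WT T e := by
  unfold WT
  rw [prod_congr_list (mem_wl hT) h]

theorem run_pwProg {b N : ℕ} (hN : b ≤ N) {l : List ℕ} (hl : ∀ i ∈ l, 2 * i + 1 < b) {e : ℕ → ℝ}
    (he : Pos b e) {κ : (ℕ → ℝ) → ℝ≥0∞} (hκ : Below b κ) :
    run N (pwProg l) e κ = ENNReal.ofReal (pw l e) * κ e := by
  induction l generalizing N e with
  | nil => simp [pwProg, run, pw]
  | cons i l ih =>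
    have hi : 2 * i + 1 < b := hl i List.mem_cons_self
    have hl' : ∀ j ∈ l, 2 * j + 1 < b := fun j hj => hl j (List.mem_cons_of_mem _ hj)
    have hpw : ∀ t : ℝ, pw l (Function.update e N t) = pw l e := by
      intro t
      unfold pw
      congr 1
      refine List.map_congr_left fun j hj => ?_
      have := hl' j hj
      rw [update_of_ne (by omega), update_of_ne (by omega)]
    have h1 : ∀ t : ℝ, (if Ok (2, 2 * i, qz) N (Function.update e N t) then
        run (N + 1) (pwProg l) (Function.update e N t) κ else 0)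
        = if 0 < t ∧ t < e (2 * i) + e (2 * i + 1) then ENNReal.ofReal (pw l e) * κ e else 0 := by
      intro t
      rw [ih (by omega) hl' (he.update hN t), hpw, hκ.update hN he]
      simp only [Ok, update_self, update_of_ne (show 2 * i ≠ N by omega),
        update_of_ne (show 2 * i + 1 ≠ N by omega)]
    change ∫⁻ t : ℝ, (if Ok (2, 2 * i, qz) N (Function.update e N t) then
        run (N + 1) (pwProg l) (Function.update e N t) κ else 0) = _
    simp only [h1]
    have hp : pw (i :: l) e = (e (2 * i) + e (2 * i + 1)) * pw l e := by simp [pw]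
    have h0 := he (2 * i) (by omega)
    have h0' := he (2 * i + 1) (by omega)
    rw [lint_ite_const, hp, ENNReal.ofReal_mul (by linarith), mul_assoc]

/-- the inner part of the tail -/
theorem run_inner {M : ℕ} {T : List Term} (hT : ∀ t ∈ T, ∀ i ∈ t.2, i < 2 * M + 1)
    {e : ℕ → ℝ} (he : Pos (2 * M + 2) e) :
    run (2 * M + 2) (pwProg (List.range M) ++ (wProg (wList M T) ++
      (gad T ++ gad (TG (2 * M + 1) T)))) e (fun _ => 1)
      = ENNReal.ofReal (pw (List.range M) e) * (ENNReal.ofReal ((e (2 * M + 1)) ^ (kT T + 1))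
        * (Pk (kT T + 2) (evT T e) * Pk (kT T + T.length + 4) (1 - e (2 * M + 1) * evT T e))) := by
  obtain ⟨h1, h2, h3⟩ := wList_lt hT
  set b := 2 * M + 2 with hb
  set G := TG (2 * M + 1) T with hG
  set K3 : (ℕ → ℝ) → ℝ≥0∞ := fun e' => Pk (kT G + 2) (evT G e') * WT G e' * 1 with hK3
  have hK3B : Below b K3 := fun e e' _ h => by
    simp only [hK3]
    rw [evT_congr h2 h, WT_congr h2 h]
  set K2 : (ℕ → ℝ) → ℝ≥0∞ := fun e' => Pk (kT T + 2) (evT T e') * WT T e' * K3 e' with hK2
  have hK2B : Below b K2 := fun e e' he h => by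
    simp only [hK2]
    rw [evT_congr h1 h, WT_congr h1 h, hK3B e e' he h]
  set K1 : (ℕ → ℝ) → ℝ≥0∞ := fun e' => ENNReal.ofReal (((wList M T).map e').prod) * K2 e' with hK1
  have hK1B : Below b K1 := fun e e' he h => by
    simp only [hK1]
    rw [prod_congr_list h3 h, hK2B e e' he h]
  have pos_of : ∀ {N : ℕ}, b ≤ N → ∀ {e e' : ℕ → ℝ}, Pos b e → (∀ i < N, e' i = e i) → Pos b e' :=
    fun hN e e' he h i hi => by rw [h i (by omega)]; exact he i hi
  have r3 : ∀ N, b ≤ N → ∀ e, Pos b e → run N (gad G) e (fun _ => 1) = K3 e := by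
    intro N hN e he
    rw [run_gad hN h2 (fun _ _ _ _ => rfl) he]
  have r2 : ∀ N, b ≤ N → ∀ e, Pos b e → run N (gad T ++ gad G) e (fun _ => 1) = K2 e := by
    intro N hN e he
    rw [run_append, run_congr (κ' := K3) fun e' he' => r3 _ (by omega) e' (pos_of hN he he'),
      run_gad hN h1 hK3B he]
  have r1 : ∀ N, b ≤ N → ∀ e, Pos b e →
      run N (wProg (wList M T) ++ (gad T ++ gad G)) e (fun _ => 1) = K1 e := by
    intro N hN e he
    rw [run_append, run_congr (κ' := K2) fun e' he' => r2 _ (by omega) e' (pos_of hN he he'),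
      run_wProg hN h3 he hK2B]
  rw [run_append, run_congr (κ' := K1) fun e' he' => r1 _ (by omega) e' (pos_of le_rfl he he'),
    run_pwProg le_rfl (fun i hi => by have := List.mem_range.1 hi; omega) he hK1B]
  congr 1
  simp only [hK1, hK2, hK3]
  have p1 := prod_pos he (mem_wl h1)
  have p2 := prod_pos he (mem_wl h2)
  have p3 : 0 < e (2 * M + 1) := he _ (by omega)
  have e1 : ((wList M T).map e).prod
      = e (2 * M + 1) ^ (kT T + 1) * (((wl T).map e).prod * ((wl G).map e).prod) := by
    simp only [wList, List.map_append, List.prod_append, List.map_replicate, List.prod_replicate]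
    rfl
  rw [e1, ENNReal.ofReal_mul (by positivity), ENNReal.ofReal_mul p1.le, hG, evT_TG, ← hG]
  have e2 : kT G + 2 = kT T + T.length + 4 := by rw [hG, kT_TG]
  rw [e2]
  have c1 : ENNReal.ofReal ((wl T).map e).prod * WT T e = 1 := by
    unfold WT
    rw [← ENNReal.ofReal_mul p1.le, mul_inv_cancel₀ p1.ne', ENNReal.ofReal_one]
  have c2 : ENNReal.ofReal ((wl G).map e).prod * WT G e = 1 := by
    unfold WT
    rw [← ENNReal.ofReal_mul p2.le, mul_inv_cancel₀ p2.ne', ENNReal.ofReal_one]
  calc ENNReal.ofReal (e (2 * M + 1) ^ (kT T + 1))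
        * (ENNReal.ofReal ((wl T).map e).prod * ENNReal.ofReal ((wl G).map e).prod)
        * (Pk (kT T + 2) (evT T e) * WT T e
          * (Pk (kT T + T.length + 4) (1 - e (2 * M + 1) * evT T e) * WT G e * 1))
      = ENNReal.ofReal (e (2 * M + 1) ^ (kT T + 1))
        * (Pk (kT T + 2) (evT T e) * Pk (kT T + T.length + 4) (1 - e (2 * M + 1) * evT T e))
        * (ENNReal.ofReal ((wl T).map e).prod * WT T e)
        * (ENNReal.ofReal ((wl G).map e).prod * WT G e) := by ring
    _ = _ := by rw [c1, c2, mul_one, mul_one]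

/-- the tail -/
theorem run_tail {M : ℕ} {T : List Term} (hT : ∀ t ∈ T, ∀ i ∈ t.2, i < 2 * M + 1)
    {e : ℕ → ℝ} (he : Pos (2 * M) e) {α β : ℝ} (hβ : 0 < β)
    (hF : ∀ y : ℝ, evT T (update e (2 * M) y) = α - y * β) :
    run (2 * M) (tailProg M T) e (fun _ => 1)
      = ENNReal.ofReal (pw (List.range M) e) * (ENNReal.ofReal (α / β) * CC T) := by
  have hin : ∀ y τ : ℝ, 0 < y → 0 < τ →
      run (2 * M + 2) (pwProg (List.range M) ++ (wProg (wList M T) ++
      (gad T ++ gad (TG (2 * M + 1) T)))) (update (update e (2 * M) y) (2 * M + 1) τ) (fun _ => 1)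
      = ENNReal.ofReal (pw (List.range M) e) * (ENNReal.ofReal (τ ^ (kT T + 1))
        * (Pk (kT T + 2) (α - y * β)
          * Pk (kT T + T.length + 4) (1 - τ * (α - y * β)))) := by
    intro y τ hy hτ
    have hpos : Pos (2 * M + 2) (update (update e (2 * M) y) (2 * M + 1) τ) := by
      intro i hi
      by_cases h1 : i = 2 * M + 1
      · subst h1; rw [update_self]; exact hτ
      · rw [update_of_ne h1]
        by_cases h2 : i = 2 * M
        · subst h2; rw [update_self]; exact hy
        · rw [update_of_ne h2]; exact he i (by omega)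
    rw [run_inner hT hpos, update_self, evT_update (le_refl _) hT, hF]
    have : pw (List.range M) (update (update e (2 * M) y) (2 * M + 1) τ) = pw (List.range M) e := by
      unfold pw
      congr 1
      refine List.map_congr_left fun j hj => ?_
      have := List.mem_range.1 hj
      rw [update_of_ne (by omega), update_of_ne (by omega), update_of_ne (by omega),
        update_of_ne (by omega)]
    rw [this]
  have hτ : ∀ y : ℝ, 0 < y →
      run (2 * M + 1) ((0, 0, qz) :: (pwProg (List.range M) ++ (wProg (wList M T) ++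
      (gad T ++ gad (TG (2 * M + 1) T))))) (update e (2 * M) y) (fun _ => 1)
      = ENNReal.ofReal (pw (List.range M) e) * (if 0 < α - y * β then CC T else 0) := by
    intro y hy
    have h1 : ∀ τ : ℝ, (if Ok (0, 0, qz) (2 * M + 1) (update (update e (2 * M) y) (2 * M + 1) τ)
        then run (2 * M + 1 + 1) (pwProg (List.range M) ++ (wProg (wList M T) ++
      (gad T ++ gad (TG (2 * M + 1) T)))) (update (update e (2 * M) y) (2 * M + 1) τ)
        (fun _ => 1) else 0)
        = ENNReal.ofReal (pw (List.range M) e) * (if 0 < τ then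
          ENNReal.ofReal (τ ^ (kT T + 2 - 1)) * (Pk (kT T + 2) (α - y * β)
          * Pk (kT T + T.length + 4) (1 - τ * (α - y * β))) else 0) := by
      intro τ
      simp only [Ok, update_self]
      by_cases h0 : 0 < τ
      · rw [if_pos h0, if_pos h0]
        exact hin y τ hy h0
      · rw [if_neg h0, if_neg h0, mul_zero]
    change ∫⁻ τ : ℝ, (if Ok (0, 0, qz) (2 * M + 1) (update (update e (2 * M) y) (2 * M + 1) τ)
        then run (2 * M + 1 + 1) (pwProg (List.range M) ++ (wProg (wList M T) ++
      (gad T ++ gad (TG (2 * M + 1) T)))) (update (update e (2 * M) y) (2 * M + 1) τ)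
        (fun _ => 1) else 0) = _
    simp only [h1]
    rw [lintegral_const_mul' _ _ ENNReal.ofReal_ne_top, lint_indicator (by omega)]
    rfl
  have h1 : ∀ y : ℝ, (if Ok (0, 0, qz) (2 * M) (update e (2 * M) y) then
      run (2 * M + 1) ((0, 0, qz) :: (pwProg (List.range M) ++ (wProg (wList M T) ++
      (gad T ++ gad (TG (2 * M + 1) T))))) (update e (2 * M) y) (fun _ => 1) else 0)
      = if 0 < y ∧ y < α / β then ENNReal.ofReal (pw (List.range M) e) * CC T else 0 := by
    intro y
    simp only [Ok, update_self]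
    by_cases h0 : 0 < y
    · rw [if_pos h0, hτ y h0]
      have hiff : 0 < α - y * β ↔ y < α / β := by
        rw [lt_div_iff₀ hβ, sub_pos]
      by_cases h2 : y < α / β
      · rw [if_pos (hiff.2 h2), if_pos ⟨h0, h2⟩]
      · rw [if_neg (fun h => h2 (hiff.1 h)), if_neg (fun h => h2 h.2), mul_zero]
    · rw [if_neg h0, if_neg (fun h => h0 h.1)]
  change ∫⁻ y : ℝ, (if Ok (0, 0, qz) (2 * M) (update e (2 * M) y) then
      run (2 * M + 1) ((0, 0, qz) :: (pwProg (List.range M) ++ (wProg (wList M T) ++
      (gad T ++ gad (TG (2 * M + 1) T))))) (update e (2 * M) y) (fun _ => 1) else 0) = _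
  simp only [h1]
  rw [lint_ite_const]
  ring

/-! ### the base -/

theorem run_pair (N : ℕ) (e : ℕ → ℝ) (κ : (ℕ → ℝ) → ℝ≥0∞) :
    run N pairProg e κ = ∫⁻ u : ℝ, (if 0 < u then ∫⁻ v : ℝ, (if 0 < v ∧ v * u < 1 then
      κ (update (update e N u) (N + 1) v) else 0) else 0) := by
  unfold pairProg
  simp only [run, Ok, update_self, Nat.add_sub_cancel, update_of_ne (show N ≠ N + 1 by omega)]

theorem run_base_congr {M : ℕ} {κ κ' : (ℕ → ℝ) → ℝ≥0∞}
    (h : ∀ e' : ℕ → ℝ, Pos (2 * M) e' → κ e' = κ' e') (e : ℕ → ℝ) :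
    run 0 (baseProg M) e κ = run 0 (baseProg M) e κ' := by
  induction M generalizing κ κ' with
  | zero => exact h e fun i hi => absurd hi (by omega)
  | succ M ih =>
    simp only [baseProg]
    rw [run_append, run_append]
    refine ih fun e' he' => ?_
    rw [length_baseProg, Nat.zero_add, run_pair, run_pair]
    refine lintegral_congr fun u => ?_
    by_cases hu : 0 < u
    · rw [if_pos hu, if_pos hu]
      refine lintegral_congr fun v => ?_
      by_cases hv : 0 < v ∧ v * u < 1
      · rw [if_pos hv, if_pos hv]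
        refine h _ fun i hi => ?_
        by_cases h1 : i = 2 * M + 1
        · subst h1; rw [update_self]; exact hv.1
        · rw [update_of_ne h1]
          by_cases h2 : i = 2 * M
          · subst h2; rw [update_self]; exact hu
          · rw [update_of_ne h2]; exact he' i (by omega)
      · rw [if_neg hv, if_neg hv]
    · rw [if_neg hu, if_neg hu]

theorem snoc_eq (M : ℕ) (z : Fin M → ℝ) (t : ℝ) :
    (Fin.snoc z t : Fin (M + 1) → ℝ)
      = (MeasurableEquiv.piFinSuccAbove (fun _ : Fin (M + 1) => ℝ) (Fin.last M)).symm (t, z) := by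
  change _ = (Fin.insertNthEquiv (fun _ => ℝ) (Fin.last M)) (t, z)
  simp [Fin.insertNthEquiv, Fin.insertNth_last']

theorem measurable_snoc (M : ℕ) : Measurable fun p : (Fin M → ℝ) × ℝ =>
    (Fin.snoc p.1 p.2 : Fin (M + 1) → ℝ) := by
  have : (fun p : (Fin M → ℝ) × ℝ => (Fin.snoc p.1 p.2 : Fin (M + 1) → ℝ))
      = fun p => (MeasurableEquiv.piFinSuccAbove (fun _ : Fin (M + 1) => ℝ) (Fin.last M)).symm
        (p.2, p.1) := by
    ext1 p
    exact snoc_eq M p.1 p.2
  rw [this]
  exact (MeasurableEquiv.measurable _).comp (measurable_snd.prodMk measurable_fst)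

theorem lint_snoc {M : ℕ} {H : (Fin (M + 1) → ℝ) → ℝ≥0∞} (hH : Measurable H) :
    ∫⁻ z : Fin M → ℝ, ∫⁻ t : ℝ, H (Fin.snoc z t) = ∫⁻ x, H x := by
  have hmp := (volume_preserving_piFinSuccAbove (fun _ : Fin (M + 1) => ℝ) (Fin.last M)).symm
  rw [← hmp.lintegral_comp hH, Measure.volume_eq_prod, lintegral_prod_symm']
  · refine lintegral_congr fun z => lintegral_congr fun t => ?_
    rw [snoc_eq]
  · exact hH.comp hmp.measurable

theorem pw_succ (M : ℕ) (e : ℕ → ℝ) :
    pw (List.range (M + 1)) e = pw (List.range M) e * (e (2 * M) + e (2 * M + 1)) := by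
  unfold pw
  rw [List.range_succ, List.map_append, List.prod_append]
  simp

theorem pw_congr {M : ℕ} {e e' : ℕ → ℝ} (h : ∀ i < 2 * M, e' i = e i) :
    pw (List.range M) e' = pw (List.range M) e := by
  unfold pw
  congr 1
  refine List.map_congr_left fun j hj => ?_
  have := List.mem_range.1 hj
  rw [h _ (by omega), h _ (by omega)]

theorem pw_pos {M : ℕ} {e : ℕ → ℝ} (he : Pos (2 * M) e) : 0 < pw (List.range M) e := by
  unfold pw
  refine List.prod_pos fun x hx => ?_
  obtain ⟨i, hi, rfl⟩ := List.mem_map.1 hx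
  have := List.mem_range.1 hi
  have h1 := he (2 * i) (by omega)
  have h2 := he (2 * i + 1) (by omega)
  linarith

theorem run_base {M : ℕ} {H : (Fin M → ℝ) → ℝ≥0∞} (hH : Measurable H) (e : ℕ → ℝ) :
    run 0 (baseProg M) e (fun e' => ENNReal.ofReal (pw (List.range M) e') * H (xOf M e'))
      = ∫⁻ x, H x := by
  induction M with
  | zero =>
    simp only [baseProg, run, pw, List.range_zero, List.map_nil, List.prod_nil,
      ENNReal.ofReal_one, one_mul]
    rw [Measure.volume_pi_eq_dirac (0 : Fin 0 → ℝ), lintegral_dirac]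
    congr 1
    exact Subsingleton.elim _ _
  | succ M ih =>
    rw [← lint_snoc hH]
    have hH' : Measurable fun z : Fin M → ℝ => ∫⁻ t : ℝ, H (Fin.snoc z t) :=
      (hH.comp (measurable_snoc M)).lintegral_prod_right'
    rw [← ih hH']
    simp only [baseProg]
    rw [run_append]
    refine run_base_congr (fun e' he' => ?_) e
    rw [length_baseProg, Nat.zero_add, run_pair]
    have hx : ∀ u v : ℝ, xOf (M + 1) (update (update e' (2 * M) u) (2 * M + 1) v)
        = Fin.snoc (xOf M e') (u - v) := by
      intro u v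
      ext i
      unfold xOf
      refine Fin.lastCases ?_ (fun j => ?_) i
      · simp only [Fin.val_last, Fin.snoc_last]
        rw [update_self, update_of_ne (by omega), update_self]
      · simp only [Fin.val_castSucc, Fin.snoc_castSucc]
        have := j.2
        rw [update_of_ne (by omega), update_of_ne (by omega), update_of_ne (by omega),
          update_of_ne (by omega)]
    have h1 : ∀ u : ℝ, (if 0 < u then ∫⁻ v : ℝ, (if 0 < v ∧ v * u < 1 then
        ENNReal.ofReal (pw (List.range (M + 1)) (update (update e' (2 * M) u) (2 * M + 1) v))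
          * H (xOf (M + 1) (update (update e' (2 * M) u) (2 * M + 1) v)) else 0) else 0)
        = ENNReal.ofReal (pw (List.range M) e') * (if 0 < u then ∫⁻ v : ℝ,
          (if 0 < v ∧ v * u < 1 then ENNReal.ofReal (u + v)
            * (fun t => H (Fin.snoc (xOf M e') t)) (u - v) else 0) else 0) := by
      intro u
      by_cases hu : 0 < u
      · rw [if_pos hu, if_pos hu, ← lintegral_const_mul' _ _ ENNReal.ofReal_ne_top]
        refine lintegral_congr fun v => ?_
        by_cases hv : 0 < v ∧ v * u < 1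
        · rw [if_pos hv, if_pos hv, hx, pw_succ, pw_congr (e := e'), update_self,
            update_of_ne (show 2 * M ≠ 2 * M + 1 by omega), update_self,
            ENNReal.ofReal_mul (pw_pos he').le, mul_assoc]
          intro i hi
          rw [update_of_ne (by omega), update_of_ne (by omega)]
        · rw [if_neg hv, if_neg hv, mul_zero]
      · rw [if_neg hu, if_neg hu, mul_zero]
    simp only [h1]
    have hm1 : Measurable fun t : ℝ => (xOf M e', t) := measurable_const.prodMk measurable_id
    have hm2 : Measurable fun t : ℝ => (Fin.snoc (xOf M e') t : Fin (M + 1) → ℝ) :=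
      (measurable_snoc M).comp hm1
    have hp := lint_pair (h := fun t => H (Fin.snoc (xOf M e') t)) (hH.comp hm2)
    rw [lintegral_const_mul' _ _ ENNReal.ofReal_ne_top, hp]

/-- value of the full program -/
theorem volume_full {M : ℕ} {T : List Term} (hT : ∀ t ∈ T, ∀ i ∈ t.2, i < 2 * M + 1)
    {A B : (Fin M → ℝ) → ℝ} (hA : Measurable A) (hB : Measurable B) (hB0 : ∀ x, 0 < B x)
    (hF : ∀ (e : ℕ → ℝ) (y : ℝ), evT T (update e (2 * M) y) = A (xOf M e) - y * B (xOf M e)) :
    volume (qSet (fullProg M T).length (sys 0 (fullProg M T)))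
      = (∫⁻ x : Fin M → ℝ, ENNReal.ofReal (A x / B x)) * CC T := by
  rw [← run_eq_volume (scopedP_full hT) (fun _ => 0)]
  unfold fullProg
  rw [run_append, run_base_congr (κ' := fun e' => ENNReal.ofReal (pw (List.range M) e')
    * (fun x => ENNReal.ofReal (A x / B x) * CC T) (xOf M e'))]
  · have h1 := run_base (H := fun x => ENNReal.ofReal (A x / B x) * CC T)
      (((hA.div hB).ennreal_ofReal).mul_const _) (fun _ => 0)
    simp only at h1 ⊢
    rw [h1, lintegral_mul_const]
    exact (hA.div hB).ennreal_ofReal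
  · intro e' he'
    rw [length_baseProg, Nat.zero_add]
    exact run_tail hT he' (hB0 _) (hF e')

theorem CC_ne_top (T : List Term) : CC T ≠ ∞ :=
  ENNReal.mul_ne_top (Pk_ne_top _ _) (Cst_ne_top (by omega))

theorem CC_ne_zero (T : List Term) : CC T ≠ 0 := by
  refine mul_ne_zero ?_ Cst_ne_zero
  rw [Pk_of_nonneg zero_le_one, one_pow]
  have : (0 : ℝ) < 1 / ((kT T + 2).factorial : ℝ) := by positivity
  exact (ENNReal.ofReal_pos.2 this).ne'

end Pool.Agent.Lib.MP_bbe012_lc.QV
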