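import Mathlib
import Pool.Agent.Lib.MP_bbe012_lc.QV.Full

/-!
# Expansion of a polynomial in the differences `x_i = u_i - v_i`
-/

namespace Pool.Agent.Lib.MP_bbe012_lc.QV

open MeasureTheory Set Function
open scoped ENNReal Classical

/-- the list of the variables of a monomial -/
def idxOf (M : ℕ) (ex : List ℕ) : List ℕ :=
  (List.range M).flatMap fun i => (List.range (ex.getD i 0)).map fun _ => i

/-- one factor `u_i - v_i` -/
def dbl (i : ℕ) (t : Term) : List Term := [(t.1, (2 * i) :: t.2), (qneg t.1, (2 * i + 1) :: t.2)]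

/-- expansion of `c ∏ (u_i - v_i)` -/
def expand (c : QCode) (l : List ℕ) : List Term := l.foldr (fun i acc => acc.flatMap (dbl i)) [(c, [])]

/-- expansion of a polynomial -/
def TA (M : ℕ) (A : PCode) : List Term := A.flatMap fun t => expand t.1 (idxOf M t.2)

/-- the terms of `A(u - v) - y B(u - v)` -/
def TF (M : ℕ) (A B : PCode) : List Term :=
  TA M A ++ (TA M B).map fun t => (qneg t.1, (2 * M) :: t.2)

theorem evT_nil (e : ℕ → ℝ) : evT [] e = 0 := by simp [evT]

theorem evT_cons (t : Term) (T : List Term) (e : ℕ → ℝ) :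
    evT (t :: T) e = (qval t.1 : ℝ) * (t.2.map e).prod + evT T e := by simp [evT]

theorem evT_append (T T' : List Term) (e : ℕ → ℝ) : evT (T ++ T') e = evT T e + evT T' e := by
  simp [evT]

theorem evT_flatMap_dbl (i : ℕ) (T : List Term) (e : ℕ → ℝ) :
    evT (T.flatMap (dbl i)) e = (e (2 * i) - e (2 * i + 1)) * evT T e := by
  induction T with
  | nil => simp [evT_nil]
  | cons t T ih =>
    rw [List.flatMap_cons, evT_append, ih, evT_cons t T]
    unfold dbl
    rw [evT_cons, evT_cons, evT_nil, qval_qneg]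
    simp only [List.map_cons, List.prod_cons]
    push_cast
    ring

theorem evT_expand (c : QCode) (l : List ℕ) (e : ℕ → ℝ) :
    evT (expand c l) e = (qval c : ℝ) * (l.map fun i => e (2 * i) - e (2 * i + 1)).prod := by
  induction l with
  | nil => simp [expand, evT_cons, evT_nil]
  | cons i l ih =>
    have : expand c (i :: l) = (expand c l).flatMap (dbl i) := rfl
    rw [this, evT_flatMap_dbl, ih]
    simp only [List.map_cons, List.prod_cons]
    ring

theorem prod_idxOf (M : ℕ) (ex : List ℕ) (g : ℕ → ℝ) :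
    ((idxOf M ex).map g).prod = ∏ i : Fin M, g i ^ ex.getD i 0 := by
  unfold idxOf
  induction M with
  | zero => simp
  | succ M ih =>
    rw [List.range_succ, List.flatMap_append, List.map_append, List.prod_append, ih,
      Fin.prod_univ_castSucc]
    congr 1
    simp

theorem evT_TA (M : ℕ) (A : PCode) (e : ℕ → ℝ) : evT (TA M A) e = pcEval M A (xOf M e) := by
  induction A with
  | nil => simp [TA, evT_nil]
  | cons t A ih =>
    have : TA M (t :: A) = expand t.1 (idxOf M t.2) ++ TA M A := by simp [TA]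
    rw [this, evT_append, ih, pcEval_cons, evT_expand, prod_idxOf]
    rfl

theorem evT_map_neg (T : List Term) (j : ℕ) (e : ℕ → ℝ) :
    evT (T.map fun t => (qneg t.1, j :: t.2)) e = - (e j * evT T e) := by
  induction T with
  | nil => simp [evT_nil]
  | cons t T ih =>
    rw [List.map_cons, evT_cons, ih, evT_cons, qval_qneg]
    simp only [List.map_cons, List.prod_cons]
    push_cast
    ring

theorem evT_TF (M : ℕ) (A B : PCode) (e : ℕ → ℝ) :
    evT (TF M A B) e = pcEval M A (xOf M e) - e (2 * M) * pcEval M B (xOf M e) := by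
  unfold TF
  rw [evT_append, evT_map_neg, evT_TA, evT_TA]
  ring

theorem xOf_update (M : ℕ) (e : ℕ → ℝ) (y : ℝ) : xOf M (update e (2 * M) y) = xOf M e := by
  ext i
  have := i.2
  unfold xOf
  rw [update_of_ne (by omega), update_of_ne (by omega)]

theorem mem_idxOf {M : ℕ} {ex : List ℕ} {i : ℕ} (h : i ∈ idxOf M ex) : i < M := by
  unfold idxOf at h
  obtain ⟨j, hj, hi⟩ := List.mem_flatMap.1 h
  obtain ⟨_, -, rfl⟩ := List.mem_map.1 hi
  exact List.mem_range.1 hj

theorem mem_expand {c : QCode} {l : List ℕ} {M : ℕ} (hl : ∀ i ∈ l, i < M) :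
    ∀ t ∈ expand c l, ∀ i ∈ t.2, i < 2 * M := by
  induction l with
  | nil =>
    intro t ht i hi
    simp only [expand, List.foldr_nil, List.mem_singleton] at ht
    rw [ht] at hi
    simp at hi
  | cons j l ih =>
    intro t ht i hi
    have hj : j < M := hl j List.mem_cons_self
    have e1 : expand c (j :: l) = (expand c l).flatMap (dbl j) := rfl
    rw [e1] at ht
    obtain ⟨s, hs, hts⟩ := List.mem_flatMap.1 ht
    have hs' := ih (fun i hi => hl i (List.mem_cons_of_mem _ hi)) s hs
    simp only [dbl, List.mem_cons, List.not_mem_nil, or_false] at hts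
    rcases hts with rfl | rfl
    · rcases List.mem_cons.1 hi with rfl | hi
      · omega
      · exact hs' i hi
    · rcases List.mem_cons.1 hi with rfl | hi
      · omega
      · exact hs' i hi

theorem mem_TA {M : ℕ} {A : PCode} : ∀ t ∈ TA M A, ∀ i ∈ t.2, i < 2 * M := by
  intro t ht
  unfold TA at ht
  obtain ⟨s, -, hs⟩ := List.mem_flatMap.1 ht
  exact mem_expand (fun i hi => mem_idxOf hi) t hs

theorem mem_TF {M : ℕ} {A B : PCode} : ∀ t ∈ TF M A B, ∀ i ∈ t.2, i < 2 * M + 1 := by
  intro t ht i hi
  unfold TF at ht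
  rcases List.mem_append.1 ht with h | h
  · have := mem_TA t h i hi
    omega
  · obtain ⟨s, hs, rfl⟩ := List.mem_map.1 h
    rcases List.mem_cons.1 hi with rfl | hi
    · omega
    · have := mem_TA s hs i hi
      omega

/-- volume of the set attached to `A / B` -/
theorem volume_rat {M : ℕ} {A B : PCode} (hB : ∀ x, 1 ≤ pcEval M B x) :
    volume (qSet (fullProg M (TF M A B)).length (sys 0 (fullProg M (TF M A B))))
      = (∫⁻ x : Fin M → ℝ, ENNReal.ofReal (pcEval M A x / pcEval M B x)) * CC (TF M A B) := by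
  refine volume_full mem_TF (continuous_pcEval M A).measurable (continuous_pcEval M B).measurable
    (fun x => by have := hB x; linarith) fun e y => ?_
  rw [evT_TF, xOf_update, update_self]

/-! ### signatures -/

/-- the degrees of the terms -/
def sg (T : List Term) : List ℕ := T.map fun t => t.2.length

theorem kT_eq (T : List Term) : kT T = ((sg T).map fun n => n + 2).sum := by
  unfold kT sg
  rw [List.map_map]
  rfl

theorem length_eq_sg (T : List Term) : T.length = (sg T).length := by simp [sg]

theorem CC_congr {T T' : List Term} (h : sg T = sg T') : CC T = CC T' := by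
  unfold CC
  rw [kT_eq, kT_eq, length_eq_sg, length_eq_sg T', h]

theorem sg_append (T T' : List Term) : sg (T ++ T') = sg T ++ sg T' := by simp [sg]

theorem sg_flatMap_dbl (i : ℕ) (T : List Term) :
    sg (T.flatMap (dbl i)) = (sg T).flatMap fun n => [n + 1, n + 1] := by
  induction T with
  | nil => simp [sg]
  | cons t T ih =>
    rw [List.flatMap_cons, sg_append, ih]
    simp [sg, dbl]

theorem sg_expand (c c' : QCode) (l : List ℕ) : sg (expand c l) = sg (expand c' l) := by
  induction l with
  | nil => simp [expand, sg]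
  | cons i l ih =>
    have e1 : ∀ c, expand c (i :: l) = (expand c l).flatMap (dbl i) := fun _ => rfl
    rw [e1, e1, sg_flatMap_dbl, sg_flatMap_dbl, ih]

theorem sg_TA_neg (M : ℕ) (A : PCode) : sg (TA M (pcNeg A)) = sg (TA M A) := by
  induction A with
  | nil => simp [TA, pcNeg]
  | cons t A ih =>
    have e1 : TA M (pcNeg (t :: A)) = expand (qneg t.1) (idxOf M t.2) ++ TA M (pcNeg A) := by
      simp [TA, pcNeg]
    have e2 : TA M (t :: A) = expand t.1 (idxOf M t.2) ++ TA M A := by simp [TA]
    rw [e1, e2, sg_append, sg_append, ih, sg_expand]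

theorem CC_neg (M : ℕ) (A B : PCode) : CC (TF M (pcNeg A) B) = CC (TF M A B) := by
  refine CC_congr ?_
  unfold TF
  rw [sg_append, sg_append, sg_TA_neg]

/-! ### the inequalities are elementary -/

theorem elementary_cons {a : Ins} {N n : ℕ} (hs : Scoped a N) (hN : N < n) :
    ∀ p ∈ cons N a, Elementary n p := by
  have hv : ∀ i (h : i < n), pcPoly n (pcVar i) = MvPolynomial.X ⟨i, h⟩ := fun i h => pcPoly_var h
  have hc : ∀ c : QCode, pcPoly n [(c, [])] = MvPolynomial.C (qval c) := by
    intro c
    have h : expVec n [] = 0 := by ext i; simp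
    simp only [pcPoly_cons, pcPoly_nil, add_zero, termPoly, h]
    rw [MvPolynomial.C_apply]
  obtain ⟨k, i, c⟩ := a
  match k with
  | 0 =>
    intro p hp
    simp only [cons, List.mem_singleton] at hp
    subst hp
    exact Or.inl ⟨⟨N, hN⟩, hv N hN⟩
  | 1 =>
    intro p hp
    simp only [Scoped] at hs
    simp only [cons, List.mem_cons, List.not_mem_nil, or_false] at hp
    rcases hp with rfl | rfl
    · exact Or.inl ⟨⟨N, hN⟩, hv N hN⟩
    · refine Or.inr (Or.inr (Or.inl ⟨⟨N, hN⟩, ⟨i, by omega⟩, ?_⟩))
      rw [pcPoly_append, pcPoly_neg, hv N hN, hv i (by omega), sub_eq_add_neg]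
  | 2 =>
    intro p hp
    simp only [Scoped] at hs
    simp only [cons, List.mem_cons, List.not_mem_nil, or_false] at hp
    rcases hp with rfl | rfl
    · exact Or.inl ⟨⟨N, hN⟩, hv N hN⟩
    · refine Or.inr (Or.inr (Or.inr (Or.inl ⟨⟨N, hN⟩, ⟨i, by omega⟩, ⟨i + 1, by omega⟩, ?_⟩)))
      rw [pcPoly_append, pcPoly_append, pcPoly_neg, hv N hN, hv i (by omega),
        hv (i + 1) (by omega), sub_eq_add_neg]
  | 3 =>
    intro p hp
    simp only [Scoped] at hs
    simp only [cons, List.mem_cons, List.not_mem_nil, or_false] at hp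
    rcases hp with rfl | rfl
    · exact Or.inl ⟨⟨N, hN⟩, hv N hN⟩
    · refine Or.inr (Or.inr (Or.inr (Or.inr (Or.inr ⟨⟨N, hN⟩, ⟨N - 1, by omega⟩, ?_⟩))))
      rw [pcPoly_append, pcPoly_neg, pcPoly_nat, pcPoly_mul, hv N hN, hv (N - 1) (by omega),
        sub_eq_add_neg]
      simp
  | 4 =>
    intro p hp
    simp only [cons, List.mem_singleton] at hp
    subst hp
    refine Or.inr (Or.inl ⟨⟨N, hN⟩, qval c, ?_⟩)
    rw [pcPoly_append, pcPoly_neg, hv N hN, hc, sub_eq_add_neg]
  | 5 =>
    intro p hp
    simp only [Scoped] at hs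
    simp only [cons, List.mem_singleton] at hp
    subst hp
    refine Or.inr (Or.inr (Or.inr (Or.inr (Or.inl ⟨⟨N, hN⟩, ⟨i, by omega⟩, ⟨N - 1, by omega⟩, ?_⟩))))
    rw [pcPoly_append, pcPoly_neg, pcPoly_mul, hv N hN, hv i (by omega), hv (N - 1) (by omega),
      sub_eq_add_neg]
  | 6 =>
    intro p hp
    simp only [Scoped] at hs
    simp only [cons, List.mem_singleton] at hp
    subst hp
    refine Or.inr (Or.inr (Or.inr (Or.inl ⟨⟨N, hN⟩, ⟨N - 1 - i, by omega⟩, ⟨N - 1, by omega⟩, ?_⟩)))
    rw [pcPoly_append, pcPoly_append, pcPoly_neg, hv N hN, hv (N - 1 - i) (by omega),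
      hv (N - 1) (by omega), sub_eq_add_neg]
  | (k + 7) =>
    intro p hp
    simp only [Scoped] at hs
    simp only [cons, List.mem_cons, List.not_mem_nil, or_false] at hp
    rcases hp with rfl | rfl
    · exact Or.inl ⟨⟨N, hN⟩, hv N hN⟩
    · refine Or.inr (Or.inr (Or.inl ⟨⟨N, hN⟩, ⟨N - 1, by omega⟩, ?_⟩))
      rw [pcPoly_append, pcPoly_neg, hv N hN, hv (N - 1) (by omega), sub_eq_add_neg]

theorem elementary_sys {N n : ℕ} {P : Prog} (hP : ScopedP N P) (hn : N + P.length ≤ n) :
    ∀ p ∈ sys N P, Elementary n p := by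
  induction P generalizing N with
  | nil => intro p hp; simp [sys] at hp
  | cons a P ih =>
    simp only [List.length_cons] at hn
    intro p hp
    simp only [sys, List.mem_append] at hp
    rcases hp with hp | hp
    · exact elementary_cons hP.1 (by omega) p hp
    · exact ih hP.2 (by omega) p hp

end Pool.Agent.Lib.MP_bbe012_lc.QV
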