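import Mathlib
import Pool.Agent.Lib.MP_bbe012_lc.QV.Expand

/-!
# The number of variables only depends on the degrees of the terms
-/

namespace Pool.Agent.Lib.MP_bbe012_lc.QV

/-- length of `wm m` -/
def lw : ℕ → ℕ
  | 0 => 0
  | n + 1 => n + 1 + lw n

theorem length_wm (m : List ℕ) : (wm m).length = lw m.length := by
  induction m with
  | nil => rfl
  | cons i m ih => simp only [wm, List.length_append, List.length_cons, ih, lw]

theorem length_wl (T : List Term) : (wl T).length = ((sg T).map lw).sum := by
  induction T with
  | nil => rfl
  | cons t T ih =>
    have e1 : wl (t :: T) = wm t.2 ++ wl T := by simp [wl]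
    have e2 : sg (t :: T) = t.2.length :: sg T := rfl
    rw [e1, e2, List.length_append, ih, length_wm, List.map_cons, List.sum_cons]

theorem sg_TG (τ : ℕ) (T : List Term) : sg (TG τ T) = 0 :: (sg T).map (fun n => n + 1) := by
  unfold sg TG
  rw [List.map_cons, List.map_map, List.map_map]
  rfl

theorem length_gad (T : List Term) : (gad T).length = ((sg T).map fun n => n + 2).sum + 2 := by
  induction T with
  | nil => rfl
  | cons t T ih =>
    have e1 : (gad (t :: T)).length = (termProg t).length + (gad T).length := by
      simp only [gad, sumProg, List.flatMap_cons, List.length_cons, List.length_append]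
      omega
    have e2 : (termProg t).length = t.2.length + 2 := by
      simp [termProg, chainProg]
    have e3 : sg (t :: T) = t.2.length :: sg T := rfl
    rw [e1, e2, e3, ih, List.map_cons, List.sum_cons]
    omega

theorem length_fullProg (M : ℕ) (T : List Term) : (fullProg M T).length =
    2 * M + (2 + M + (kT T + 1 + (((sg T).map lw).sum +
      ((0 :: (sg T).map (fun n => n + 1)).map lw).sum)) + ((((sg T).map fun n => n + 2).sum + 2) +
      (((0 :: (sg T).map (fun n => n + 1)).map fun n => n + 2).sum + 2))) := by
  unfold fullProg tailProg wList
  simp only [List.length_append, List.length_cons, length_baseProg, pwProg, wProg, List.length_map,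
    List.length_range, List.length_replicate, length_wl, sg_TG, length_gad]
  omega

theorem length_fullProg_congr {M : ℕ} {T T' : List Term} (h : sg T = sg T') :
    (fullProg M T).length = (fullProg M T').length := by
  rw [length_fullProg, length_fullProg, kT_eq, kT_eq, h]

theorem sg_TF_neg (M : ℕ) (A B : PCode) : sg (TF M (pcNeg A) B) = sg (TF M A B) := by
  unfold TF
  rw [sg_append, sg_append, sg_TA_neg]

end Pool.Agent.Lib.MP_bbe012_lc.QV
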