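import Mathlib
import Pool.Agent.Lib.MP_bbe012_lc.Comp
import Pool.Agent.Lib.MP_bbe012_lc.QV.Expand

/-!
# The construction of the system of inequalities is primitive recursive
-/

namespace Pool.Agent.Lib.MP_bbe012_lc.QV

open Primrec

section generic

variable {α : Type} [Primcodable α]

theorem pr_qneg {f : α → QCode} (hf : Primrec f) : Primrec fun a => qneg (f a) :=
  primrec_qneg.comp hf

theorem pr_qz : Primrec fun _ : α => qz := const _

/-- replicate is primitive recursive -/
theorem pr_replicate {β : Type} [Primcodable β] {k : α → ℕ} {b : α → β} (hk : Primrec k)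
    (hb : Primrec b) : Primrec fun a => List.replicate (k a) (b a) :=
  (list_map (f := fun a => List.range (k a)) (g := fun a _ => b a) (list_range.comp hk)
    (hb.comp fst).to₂).of_eq fun a => by
      simp [List.map_const']

end generic

theorem cons_eq (N : ℕ) (a : Ins) : cons N a =
    if a.1 = 0 then [pcVar N]
    else if a.1 = 1 then [pcVar N, pcVar a.2.1 ++ pcNeg (pcVar N)]
    else if a.1 = 2 then [pcVar N, (pcVar a.2.1 ++ pcVar (a.2.1 + 1)) ++ pcNeg (pcVar N)]
    else if a.1 = 3 then [pcVar N, pcNat 1 ++ pcNeg (pcMul (pcVar N) (pcVar (N - 1)))]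
    else if a.1 = 4 then [[(a.2.2, [])] ++ pcNeg (pcVar N)]
    else if a.1 = 5 then [pcMul (pcVar a.2.1) (pcVar (N - 1)) ++ pcNeg (pcVar N)]
    else if a.1 = 6 then [(pcVar (N - 1 - a.2.1) ++ pcVar (N - 1)) ++ pcNeg (pcVar N)]
    else [pcVar N, pcVar (N - 1) ++ pcNeg (pcVar N)] := by
  obtain ⟨k, i, c⟩ := a
  match k with
  | 0 => rfl
  | 1 => rfl
  | 2 => rfl
  | 3 => rfl
  | 4 => rfl
  | 5 => rfl
  | 6 => rfl
  | (k + 7) =>
    have h : ∀ j < 7, ¬ (k + 7 = j) := fun j hj => by omega
    simp only [cons, h 0 (by norm_num), h 1 (by norm_num), h 2 (by norm_num), h 3 (by norm_num),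
      h 4 (by norm_num), h 5 (by norm_num), h 6 (by norm_num), if_false]

/-- the kind of the second component -/
theorem pr_kind (k : ℕ) : PrimrecPred fun q : ℕ × Ins => q.2.1 = k :=
  Primrec.eq.comp (fst.comp snd) (const k)

theorem primrec_cons : Primrec fun q : ℕ × Ins => cons q.1 q.2 := by
  have hN : Primrec fun q : ℕ × Ins => pcVar q.1 := pr_var fst
  have hneg : Primrec fun q : ℕ × Ins => pcNeg (pcVar q.1) := pr_neg hN
  have hN1 : Primrec fun q : ℕ × Ins => q.1 - 1 := nat_sub.comp fst (const 1)
  have hV1 : Primrec fun q : ℕ × Ins => pcVar (q.1 - 1) := pr_var hN1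
  have hi : Primrec fun q : ℕ × Ins => q.2.2.1 := fst.comp (snd.comp snd)
  have hc : Primrec fun q : ℕ × Ins => q.2.2.2 := snd.comp (snd.comp snd)
  have hVi : Primrec fun q : ℕ × Ins => pcVar q.2.2.1 := pr_var hi
  have single : ∀ {f : ℕ × Ins → PCode}, Primrec f → Primrec fun q => [f q] :=
    fun hf => list_cons.comp hf (const [])
  have double : ∀ {f g : ℕ × Ins → PCode}, Primrec f → Primrec g → Primrec fun q => [f q, g q] :=
    fun hf hg => list_cons.comp hf (single hg)
  have h0 := single hN
  have h1 := double hN (pr_append hVi hneg)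
  have h2 := double hN (pr_append (pr_append hVi (pr_var (succ.comp hi))) hneg)
  have h3 := double hN (pr_append (pr_nat 1) (pr_neg (pr_mul hN hV1)))
  have h4 := single (pr_append (f := fun q : ℕ × Ins => [(q.2.2.2, ([] : List ℕ))])
    (list_cons.comp (pair hc (const [])) (const [])) hneg)
  have h5 := single (pr_append (pr_mul hVi hV1) hneg)
  have h6 := single (pr_append (pr_append (pr_var (nat_sub.comp hN1 hi)) hV1) hneg)
  have h7 := double hN (pr_append hV1 hneg)
  refine (Primrec.ite (pr_kind 0) h0 (Primrec.ite (pr_kind 1) h1 (Primrec.ite (pr_kind 2) h2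
    (Primrec.ite (pr_kind 3) h3 (Primrec.ite (pr_kind 4) h4 (Primrec.ite (pr_kind 5) h5
    (Primrec.ite (pr_kind 6) h6 h7))))))).of_eq fun q => ?_
  rw [cons_eq]

/-- one step of the computation of `sys` -/
def sysStep (s : ℕ × List PCode) (a : Ins) : ℕ × List PCode := (s.1 + 1, s.2 ++ cons s.1 a)

theorem sys_foldl (P : Prog) (N : ℕ) (out : List PCode) :
    P.foldl sysStep (N, out) = (N + P.length, out ++ sys N P) := by
  induction P generalizing N out with
  | nil => simp [sys]
  | cons a P ih =>
    rw [List.foldl_cons]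
    have : sysStep (N, out) a = (N + 1, out ++ cons N a) := rfl
    rw [this, ih]
    simp only [sys, List.length_cons, List.append_assoc]
    congr 1
    omega

theorem primrec_sys : Primrec fun P : Prog => (P.length, sys 0 P) := by
  have hstep : Primrec fun q : (ℕ × List PCode) × Ins => sysStep q.1 q.2 :=
    pair (succ.comp (fst.comp fst)) (list_append.comp (snd.comp fst)
      (primrec_cons.comp (pair (fst.comp fst) snd)))
  have h : Primrec fun P : Prog => P.foldl sysStep (0, []) :=
    list_foldl (f := fun P : Prog => P) (g := fun _ => ((0, []) : ℕ × List PCode))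
      (h := fun (_ : Prog) (q : (ℕ × List PCode) × Ins) => sysStep q.1 q.2)
      Primrec.id (const _) (hstep.comp snd).to₂
  refine h.of_eq fun P => ?_
  rw [sys_foldl, Nat.zero_add, List.nil_append]

theorem baseProg_eq (M : ℕ) : baseProg M = (List.range M).flatMap fun _ => pairProg := by
  induction M with
  | zero => rfl
  | succ M ih =>
    rw [baseProg, ih, List.range_succ, List.flatMap_append]
    simp

theorem primrec_baseProg : Primrec baseProg :=
  (list_flatMap (f := fun M : ℕ => List.range M) (g := fun _ _ => pairProg) list_range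
    (const _).to₂).of_eq fun M => (baseProg_eq M).symm

theorem primrec_kT : Primrec kT := by
  have h : Primrec fun T : List Term => T.foldr (fun t acc => t.2.length + 2 + acc) 0 :=
    list_foldr (f := fun T : List Term => T) (g := fun _ => 0)
      (h := fun (_ : List Term) (q : Term × ℕ) => q.1.2.length + 2 + q.2) Primrec.id (const 0)
      (nat_add.comp (nat_add.comp (list_length.comp (snd.comp (fst.comp snd))) (const 2))
        (snd.comp snd)).to₂
  refine h.of_eq fun T => ?_
  induction T with
  | nil => rfl
  | cons t T ih =>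
    rw [List.foldr_cons, ih]
    simp [kT]

theorem wm_foldr (m : List ℕ) :
    m.foldr (fun i s => (i :: s.1, (i :: s.1) ++ s.2)) (([], []) : List ℕ × List ℕ) = (m, wm m) := by
  induction m with
  | nil => rfl
  | cons i m ih => rw [List.foldr_cons, ih]; rfl

theorem primrec_wm : Primrec wm := by
  have h : Primrec fun m : List ℕ => m.foldr
      (fun i s => (i :: s.1, (i :: s.1) ++ s.2)) (([], []) : List ℕ × List ℕ) :=
    list_foldr (f := fun m : List ℕ => m) (g := fun _ => (([], []) : List ℕ × List ℕ))
      (h := fun (_ : List ℕ) (q : ℕ × (List ℕ × List ℕ)) =>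
        (q.1 :: q.2.1, (q.1 :: q.2.1) ++ q.2.2)) Primrec.id (const _)
      (pair (list_cons.comp (fst.comp snd) (fst.comp (snd.comp snd)))
        (list_append.comp (list_cons.comp (fst.comp snd) (fst.comp (snd.comp snd)))
          (snd.comp (snd.comp snd)))).to₂
  exact (snd.comp h).of_eq fun m => by rw [wm_foldr]

theorem primrec_wl : Primrec wl :=
  list_flatMap (f := fun T : List Term => T) (g := fun _ t => wm t.2) Primrec.id
    (primrec_wm.comp (snd.comp snd)).to₂

theorem primrec_wProg : Primrec wProg :=
  list_map (f := fun l : List ℕ => l) (g := fun _ i => ((1, i, qz) : Ins)) Primrec.id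
    (pair (const 1) (pair snd (const qz))).to₂

theorem primrec_chainProg : Primrec chainProg :=
  list_map (f := fun l : List ℕ => l) (g := fun _ i => ((5, i, qz) : Ins)) Primrec.id
    (pair (const 5) (pair snd (const qz))).to₂

theorem primrec_pwProg : Primrec pwProg :=
  list_map (f := fun l : List ℕ => l) (g := fun _ i => ((2, 2 * i, qz) : Ins)) Primrec.id
    (pair (const 2) (pair (nat_mul.comp (const 2) snd) (const qz))).to₂

theorem primrec_termProg : Primrec termProg := by
  have h1 : Primrec fun t : Term => ((4, 0, t.1) : Ins) := pair (const 4) (pair (const 0) fst)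
  have h2 : Primrec fun t : Term => ((6, t.2.length + 1, qz) : Ins) :=
    pair (const 6) (pair (succ.comp (list_length.comp snd)) (const qz))
  exact list_cons.comp h1 (list_append.comp (primrec_chainProg.comp snd)
    (list_cons.comp h2 (const [])))

theorem primrec_sumProg : Primrec sumProg :=
  list_append.comp (list_flatMap (f := fun T : List Term => T) (g := fun _ t => termProg t)
    Primrec.id (primrec_termProg.comp snd).to₂) (const _)

theorem primrec_gad : Primrec gad := list_cons.comp (const _) primrec_sumProg

theorem primrec_negMap : Primrec fun q : ℕ × List Term =>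
    q.2.map fun t => ((qneg t.1, q.1 :: t.2) : Term) :=
  list_map (f := fun q : ℕ × List Term => q.2)
    (g := fun (q : ℕ × List Term) (t : Term) => ((qneg t.1, q.1 :: t.2) : Term)) snd
    (pair (pr_qneg (fst.comp snd)) (list_cons.comp (fst.comp fst) (snd.comp snd))).to₂

theorem primrec_TG : Primrec fun q : ℕ × List Term => TG q.1 q.2 :=
  list_cons.comp (const _) primrec_negMap

theorem primrec_wList : Primrec fun q : ℕ × List Term => wList q.1 q.2 := by
  have hτ : Primrec fun q : ℕ × List Term => 2 * q.1 + 1 := succ.comp (nat_mul.comp (const 2) fst)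
  exact list_append.comp (pr_replicate (succ.comp (primrec_kT.comp snd)) hτ)
    (list_append.comp (primrec_wl.comp snd) (primrec_wl.comp (primrec_TG.comp (pair hτ snd))))

theorem primrec_tailProg : Primrec fun q : ℕ × List Term => tailProg q.1 q.2 := by
  have hτ : Primrec fun q : ℕ × List Term => 2 * q.1 + 1 := succ.comp (nat_mul.comp (const 2) fst)
  exact list_cons.comp (const _) (list_cons.comp (const _)
    (list_append.comp (primrec_pwProg.comp (list_range.comp fst))
      (list_append.comp (primrec_wProg.comp primrec_wList)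
        (list_append.comp (primrec_gad.comp snd)
          (primrec_gad.comp (primrec_TG.comp (pair hτ snd)))))))

theorem primrec_fullProg : Primrec fun q : ℕ × List Term => fullProg q.1 q.2 :=
  list_append.comp (primrec_baseProg.comp fst) primrec_tailProg

theorem primrec_idxOf : Primrec fun q : ℕ × List ℕ => idxOf q.1 q.2 := by
  have h : Primrec fun r : (ℕ × List ℕ) × ℕ =>
      (List.range (r.1.2.getD r.2 0)).map fun _ => r.2 :=
    list_map (f := fun r : (ℕ × List ℕ) × ℕ => List.range (r.1.2.getD r.2 0))
      (g := fun r _ => r.2) (list_range.comp ((list_getD 0).comp (snd.comp fst) snd))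
      (snd.comp fst).to₂
  exact list_flatMap (f := fun q : ℕ × List ℕ => List.range q.1)
    (g := fun q i => (List.range (q.2.getD i 0)).map fun _ => i) (list_range.comp fst) h.to₂

theorem primrec_dbl : Primrec fun q : ℕ × Term => dbl q.1 q.2 := by
  have h2 : Primrec fun q : ℕ × Term => 2 * q.1 := nat_mul.comp (const 2) fst
  have a1 : Primrec fun q : ℕ × Term => ((q.2.1, (2 * q.1) :: q.2.2) : Term) :=
    pair (fst.comp snd) (list_cons.comp h2 (snd.comp snd))
  have a2 : Primrec fun q : ℕ × Term => ((qneg q.2.1, (2 * q.1 + 1) :: q.2.2) : Term) :=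
    pair (pr_qneg (fst.comp snd)) (list_cons.comp (succ.comp h2) (snd.comp snd))
  exact list_cons.comp a1 (list_cons.comp a2 (const []))

theorem primrec_expand : Primrec fun q : QCode × List ℕ => expand q.1 q.2 := by
  have hb : Primrec fun q : QCode × List ℕ => [((q.1, []) : Term)] :=
    list_cons.comp (pair fst (const [])) (const [])
  have hs : Primrec fun r : (QCode × List ℕ) × (ℕ × List Term) => r.2.2.flatMap (dbl r.2.1) :=
    list_flatMap (f := fun r : (QCode × List ℕ) × (ℕ × List Term) => r.2.2)
      (g := fun r t => dbl r.2.1 t) (snd.comp snd)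
      (primrec_dbl.comp (pair (fst.comp (snd.comp fst)) snd)).to₂
  exact list_foldr (f := fun q : QCode × List ℕ => q.2) (g := fun q => [((q.1, []) : Term)])
    (h := fun _ (r : ℕ × List Term) => r.2.flatMap (dbl r.1)) snd hb hs.to₂

theorem primrec_TA : Primrec fun q : ℕ × PCode => TA q.1 q.2 := by
  have h : Primrec fun r : (ℕ × PCode) × (QCode × List ℕ) => expand r.2.1 (idxOf r.1.1 r.2.2) :=
    primrec_expand.comp (pair (fst.comp snd)
      (primrec_idxOf.comp (pair (fst.comp fst) (snd.comp snd))))
  exact list_flatMap (f := fun q : ℕ × PCode => q.2)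
    (g := fun q (t : QCode × List ℕ) => expand t.1 (idxOf q.1 t.2)) snd h.to₂

theorem primrec_TF : Primrec fun q : ℕ × (PCode × PCode) => TF q.1 q.2.1 q.2.2 := by
  have h1 : Primrec fun q : ℕ × (PCode × PCode) => TA q.1 q.2.1 :=
    primrec_TA.comp (pair fst (fst.comp snd))
  have h2 : Primrec fun q : ℕ × (PCode × PCode) => TA q.1 q.2.2 :=
    primrec_TA.comp (pair fst (snd.comp snd))
  have h3 : Primrec fun q : ℕ × (PCode × PCode) => 2 * q.1 := nat_mul.comp (const 2) fst
  exact list_append.comp h1 (primrec_negMap.comp (pair h3 h2))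

/-- The system of inequalities attached to the integral of `A / B` over `ℝ^M`. -/
def quad (q : ℕ × (PCode × PCode)) : ℕ × List PCode :=
  ((fullProg q.1 (TF q.1 q.2.1 q.2.2)).length, sys 0 (fullProg q.1 (TF q.1 q.2.1 q.2.2)))

theorem primrec_quad : Primrec quad :=
  primrec_sys.comp (primrec_fullProg.comp (pair fst primrec_TF))

end Pool.Agent.Lib.MP_bbe012_lc.QV
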